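import Pool.Agent.TH812.GV2.Duals

/-!
Derivations of a function field dual to constants which are algebraically independent over a
subfield.
-/

set_option autoImplicit false

open FF Pool.Agent.W603.LV Pool.Agent.W603.PV Pool.Agent.TH145.GH Pool.Agent.TH145.MG
open AlgebraicIndependent

namespace Pool.Agent.TH812.GV3

open Pool.Agent.TH812.GV

theorem sem_of_basis {k0 k F : Type} [Field k0] [Field k] [Field F] [Algebra k0 k]
    [Algebra k F] [Algebra k0 F] [IsScalarTower k0 k F] [IsAlgClosed k] [CharZero k]
    {ιy : Type} {y : ιy → k} (hy : IsTranscendenceBasis k0 y) (E : Derivation k0 F F)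
    (hE : ∀ i, E (algebraMap k F (y i)) = 0 ∨ E (algebraMap k F (y i)) = 1) :
    Sem k (E.restrictScalars ℤ) := by
  have hF : CharZero F := charZero_of_injective_algebraMap (algebraMap k F).injective
  obtain ⟨S, hS⟩ : ∃ S : Set F, S = Set.range (algebraMap k0 F) ∪
    Set.range (algebraMap k F ∘ y) := ⟨_, rfl⟩
  have hkr : IsAlgClosed (algebraMap k F).fieldRange :=
    IsAlgClosed.of_ringEquiv k _ (RingHom.rangeRestrictFieldEquiv (algebraMap k F))
  have hSk : acl S ≤ (algebraMap k F).fieldRange := by
    refine acl_of_isAlgClosed hkr ?_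
    rw [hS]
    rintro _ (⟨r, rfl⟩ | ⟨i, rfl⟩)
    · exact ⟨algebraMap k0 k r, (IsScalarTower.algebraMap_apply k0 k F r).symm⟩
    · exact ⟨y i, rfl⟩
  have hkS : ∀ r : k, algebraMap k F r ∈ acl S := by
    intro r
    rw [mem_acl]
    have h1 : IsAlgebraic (IntermediateField.adjoin k0 (Set.range y)) r := by
      have := hy.isAlgebraic_field
      exact this.isAlgebraic r
    obtain ⟨p, hp0, hp⟩ := h1
    have h2 : ∀ a : IntermediateField.adjoin k0 (Set.range y),
        algebraMap k F (a : k) ∈ Subfield.closure S := by
      intro a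
      have h3 : (a : k) ∈ Subfield.closure (Set.range (algebraMap k0 k) ∪ Set.range y) := by
        rw [← IntermediateField.adjoin_toSubfield]
        exact a.2
      have h4 : Subfield.closure (Set.range (algebraMap k0 k) ∪ Set.range y) ≤
          (Subfield.closure S).comap (algebraMap k F) := by
        rw [Subfield.closure_le]
        rintro _ (⟨r, rfl⟩ | ⟨i, rfl⟩)
        · refine Subfield.subset_closure ?_
          rw [hS]
          exact Or.inl ⟨r, IsScalarTower.algebraMap_apply k0 k F r⟩
        · refine Subfield.subset_closure ?_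
          rw [hS]
          exact Or.inr ⟨i, rfl⟩
      exact h4 h3
    let φ : IntermediateField.adjoin k0 (Set.range y) →+* Subfield.closure S :=
      { toFun := fun a => ⟨algebraMap k F (a : k), h2 a⟩
        map_one' := Subtype.ext (map_one (algebraMap k F))
        map_mul' := fun a b => Subtype.ext (map_mul (algebraMap k F) (a : k) b)
        map_zero' := Subtype.ext (map_zero (algebraMap k F))
        map_add' := fun a b => Subtype.ext (map_add (algebraMap k F) (a : k) b) }
    refine ⟨p.map φ, (Polynomial.map_ne_zero_iff φ.injective).2 hp0, ?_⟩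
    have h5 := congrArg (algebraMap k F) hp
    rw [map_zero, Polynomial.aeval_def, Polynomial.hom_eval₂] at h5
    rw [Polynomial.aeval_def, Polynomial.eval₂_map]
    exact h5
  intro r
  have h1 : E.restrictScalars ℤ (algebraMap k F r) ∈ acl S := by
    refine der_acl (E.restrictScalars ℤ) ?_ (hkS r)
    rw [hS]
    rintro s (⟨r, rfl⟩ | ⟨i, rfl⟩)
    · change E (algebraMap k0 F r) ∈ _
      rw [Derivation.map_algebraMap]
      exact zero_mem _
    · change E (algebraMap k F (y i)) ∈ _
      rcases hE i with h | h
      · rw [h]; exact zero_mem _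
      · rw [h]; exact one_mem _
  obtain ⟨r', hr'⟩ := hSk h1
  exact ⟨r', hr'.symm⟩

theorem exists_duals3 {F0 k L : Type} [Field F0] [Field k] [Field L] [Algebra F0 k]
    [Algebra k L] [Algebra F0 L] [IsScalarTower F0 k L] [IsAlgClosed k] [CharZero k] [IsFF k L]
    {β : Type} (c : β → k) (hc : AlgebraicIndependent F0 c) :
    ∃ D : β → Derivation ℤ L L, (∀ b, Sem k (D b)) ∧
      (∀ b (r : F0), D b (algebraMap F0 L r) = 0) ∧
      ∀ b b', (b = b' → D b (algebraMap k L (c b')) = 1) ∧
        (b ≠ b' → D b (algebraMap k L (c b')) = 0) := by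
  classical
  have hL : CharZero L := charZero_of_injective_algebraMap (algebraMap k L).injective
  have hF0 : CharZero F0 := by
    constructor
    intro a b hab
    have h1 := congrArg (algebraMap F0 k) hab
    rw [map_natCast, map_natCast] at h1
    exact Nat.cast_injective h1
  obtain ⟨t, ht⟩ := IsFF.exists_transcendental (k := k) (K := L)
  have h1 : AlgebraicIndepOn F0 id (Set.range c) := hc.to_subtype_range
  obtain ⟨s, hs, hsb⟩ := exists_isTranscendenceBasis_superset h1
  have hz := hsb.sumElim_comp (IsFF.basis ht)
  have hD : ∀ b : β, ∃ E : Derivation F0 L L, ∀ w : s, E (algebraMap k L w) =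
      if (w : k) = c b then 1 else 0 := by
    intro b
    obtain ⟨E, hE⟩ := Pool.Agent.W602.GT.exists_der _ hz
      (Sum.elim (fun _ => 0) fun w : s => if (w : k) = c b then 1 else 0)
    exact ⟨E, fun w => hE (Sum.inr w)⟩
  choose E hE using hD
  refine ⟨fun b => (E b).restrictScalars ℤ, fun b => ?_, fun b r => ?_, fun b b' => ?_⟩
  · refine sem_of_basis hsb (E b) fun w => ?_
    have h2 : E b (algebraMap k L (w : k)) = _ := hE b w
    by_cases h : (w : k) = c b
    · rw [if_pos h] at h2
      exact Or.inr h2
    · rw [if_neg h] at h2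
      exact Or.inl h2
  · exact (E b).map_algebraMap r
  · have h2 := hE b ⟨c b', hs ⟨b', rfl⟩⟩
    change (b = b' → E b (algebraMap k L (c b')) = 1) ∧
        (b ≠ b' → E b (algebraMap k L (c b')) = 0)
    have h3 : E b (algebraMap k L (c b')) = _ := h2
    rw [h3]
    refine ⟨fun h => by rw [h]; exact if_pos rfl, fun h => if_neg fun h' => h ?_⟩
    exact (hc.injective h').symm

end Pool.Agent.TH812.GV3
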