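import Pool.Agent.TH812.GV3.Rigid

/-!
The case of equality in the height inequality: the curve is a line or degenerate.
-/

set_option autoImplicit false

open MvPolynomial FF Pool.Agent.W603.LV Pool.Agent.W603.PV Pool.Agent.TH145.GH

namespace Pool.Agent.TH812.GV3

open Pool.Agent.TH812.GV Pool.Agent.TH812.GV2

section wt

variable {n : ℕ} {α : Type} {d : α → ℕ}

open Classical in
theorem wt_le_of_no_de [Fintype α] {v : Fin (n + 1) → Gt α n}
    (hno : ∀ t a M i j, v t ≠ Gt.de a M i j) {T : Finset (Fin (n + 1))}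
    (hTd : T = Finset.univ.filter fun t => (v t).lev ≤ 3) (S : Finset α)
    (hS : ∀ a ∉ S, ∃ t, v t = Gt.v a) :
    ∑ t, (v t).wt d ≤ T.card - ∑ a ∈ Sᶜ, (d a : ℤ) := by
  have h1 : ∀ t, (v t).wt d = (if (v t).lev ≤ 3 then 1 else 0) -
      ∑ a, (if v t = Gt.v a then (d a : ℤ) else 0) := by
    intro t
    have hno' := hno t
    rcases hvt : v t with _ | _ | ⟨a, M, i, j⟩ | a | i
    · simp [Gt.wt, Gt.lev]
    · simp [Gt.wt, Gt.lev]
    · exact absurd hvt (hno' a M i j)
    · simp only [Gt.wt, Gt.lev, Gt.v.injEq, Finset.sum_ite_eq, Finset.mem_univ, if_true]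
      simp
    · simp [Gt.wt, Gt.lev]
  rw [Finset.sum_congr rfl fun t _ => h1 t, Finset.sum_sub_distrib, Finset.sum_boole,
    Finset.sum_comm, ← hTd]
  have h3 : ∑ a ∈ Sᶜ, (d a : ℤ) ≤ ∑ a, ∑ t, (if v t = Gt.v a then (d a : ℤ) else 0) := by
    have h4 : ∀ a, 0 ≤ ∑ t, (if v t = Gt.v a then (d a : ℤ) else 0) := fun a =>
      Finset.sum_nonneg fun t _ => by positivity
    refine le_trans (Finset.sum_le_sum fun a ha => ?_)
      (Finset.sum_le_sum_of_subset_of_nonneg (Finset.subset_univ Sᶜ) fun a _ _ => h4 a)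
    obtain ⟨t, ht⟩ := hS a (Finset.mem_compl.1 ha)
    have := Finset.single_le_sum (f := fun t => if v t = Gt.v a then (d a : ℤ) else 0)
      (fun t _ => by positivity) (Finset.mem_univ t)
    simpa [ht] using this
  linarith

end wt

/-- The determinant as a linear form in one row. -/
theorem exists_lin {K : Type} [Field K] {N : ℕ} (b : Matrix (Fin N) (Fin N) K) (u : Fin N) :
    ∃ lin : (Fin N → K) →ₗ[K] K, ∀ y, lin y = (b.updateRow u y).det :=
  ⟨{ toFun := fun y => (b.updateRow u y).det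
     map_add' := fun y z => Matrix.det_updateRow_add _ _ _ _
     map_smul' := fun c y => by
      rw [RingHom.id_apply, smul_eq_mul]
      exact Matrix.det_updateRow_smul _ _ _ _ }, fun _ => rfl⟩

variable {k K : Type} [Field k] [Field K] [Algebra k K] [IsAlgClosed k] [CharZero k] [IsFF k K]
  {n : ℕ} {α : Type} {F : α → MvPolynomial (Fin (n + 1)) K} {d : α → ℕ}
    {D : α → (Fin (n + 1) →₀ ℕ) → Derivation ℤ K K} {ep : α → (Fin (n + 1) →₀ ℕ) → ℕ}

/-- If all exchanges of one row of level two are rigid, the curve is a line. -/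
theorem line_of_de {E : Derivation k K K} (hE : E ≠ 0) {x : Fin (n + 1) → K} (hx0 : x ≠ 0)
    {l0 : Fin (n + 1)} {A : ℤ} {cnt : Place k K → ℤ} (hcfin : {P | cnt P ≠ 0}.Finite)
    (hle : ∑ᶠ P, cnt P + canDeg k K ≤ -A * pht k x)
    {b0 : Matrix (Fin (n + 1)) (Fin (n + 1)) K} (hb0d : b0.det ≠ 0) {R : K} (hR : R ≠ 0)
    (hloc : ∀ P, A * pord P x - cnt P + vo P E ≤ P.ord (b0.det / R)) {ts : Fin (n + 1)}
    {a : α} {M : Fin (n + 1) →₀ ℕ} {i j : Fin (n + 1)}
    (hts : b0 ts = gw d D x l0 (Gn.de a M i j))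
    (hloc' : ∀ i' j', (b0.updateRow ts (gw d D x l0 (Gn.de a M i' j'))).det ≠ 0 → ∀ P,
      A * pord P x - cnt P + vo P E ≤
        P.ord ((b0.updateRow ts (gw d D x l0 (Gn.de a M i' j'))).det / R)) :
    Module.finrank k (Submodule.span k (Set.range x)) ≤ 2 := by
  classical
  have hM : M.degree + 1 = d a := by
    by_contra hM
    apply hb0d
    refine Matrix.det_eq_zero_of_row_eq_zero ts fun l => ?_
    rw [hts, de_zero hM]
    rfl
  obtain ⟨φ, hφ⟩ := exists_lin b0 ts
  obtain ⟨f, hf⟩ : ∃ f : Fin (n + 1) → K, ∀ l, f l =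
    φ (fun l' => D a (M + Finsupp.single l 1) (x l')) := ⟨_, fun _ => rfl⟩
  have hφde : ∀ i' j', φ (gw d D x l0 (Gn.de a M i' j')) = x j' * f i' - x i' * f j' := by
    intro i' j'
    have h2 : gw d D x l0 (Gn.de a M i' j') =
        x j' • (fun l => D a (M + Finsupp.single i' 1) (x l)) -
          x i' • (fun l => D a (M + Finsupp.single j' 1) (x l)) := by
      funext l
      simp only [gw, if_pos hM, Pi.sub_apply, Pi.smul_apply, smul_eq_mul]
    rw [h2, map_sub, map_smul, map_smul, ← hf, ← hf]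
    rfl
  have hconst : ∀ i' j', ∃ c : k, x j' * f i' - x i' * f j' = algebraMap k K c * b0.det := by
    intro i' j'
    obtain ⟨b1, hb1⟩ : ∃ b1 : Matrix (Fin (n + 1)) (Fin (n + 1)) K,
      b1 = b0.updateRow ts (gw d D x l0 (Gn.de a M i' j')) := ⟨_, rfl⟩
    have hb1d : b1.det = x j' * f i' - x i' * f j' := by
      rw [hb1, ← hφ, hφde]
    obtain ⟨c, hc⟩ := const_ratio hE hx0 (Θ := b0.det / R)
      (Θ' := b1.det / R) (div_ne_zero hb0d hR) hcfin hle hloc (fun h0 P => by
        have hb1d0 : b1.det ≠ 0 := by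
          intro h
          apply h0
          rw [h, zero_div]
        rw [hb1] at hb1d0 ⊢
        exact hloc' i' j' hb1d0 P)
    refine ⟨c, ?_⟩
    rw [← hb1d]
    have h4 : b1.det = (b1.det / R) * R := by
      field_simp
    rw [h4, hc]
    field_simp
  choose cc hcc using hconst
  have hself : x j * f i - x i * f j = b0.det := by
    rw [← hφde, hφ, ← hts, Matrix.updateRow_eq_self]
  have hxl : ∀ l, x l = -algebraMap k K (cc j l) * x i - algebraMap k K (cc l i) * x j := by
    intro l
    have h1 := hcc j l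
    have h2 := hcc l i
    apply mul_right_cancel₀ hb0d
    have h3 : x l * b0.det = x l * (x j * f i - x i * f j) := by rw [hself]
    rw [h3]
    linear_combination (-x i) * h1 - x j * h2
  have hsub : Submodule.span k (Set.range x) ≤
      Submodule.span k (({x i, x j} : Finset K) : Set K) := by
    rw [Submodule.span_le]
    rintro _ ⟨l, rfl⟩
    rw [SetLike.mem_coe, hxl l]
    have hi : x i ∈ Submodule.span k (({x i, x j} : Finset K) : Set K) :=
      Submodule.subset_span (by simp)
    have hj : x j ∈ Submodule.span k (({x i, x j} : Finset K) : Set K) :=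
      Submodule.subset_span (by simp)
    have h4 : -algebraMap k K (cc j l) * x i - algebraMap k K (cc l i) * x j =
        (-cc j l) • x i - cc l i • x j := by
      rw [Algebra.smul_def, Algebra.smul_def, map_neg]
    rw [h4]
    exact Submodule.sub_mem _ (Submodule.smul_mem _ _ hi) (Submodule.smul_mem _ _ hj)
  have hfd : FiniteDimensional k (Submodule.span k (({x i, x j} : Finset K) : Set K)) :=
    FiniteDimensional.span_finset k _
  exact (Submodule.finrank_mono hsub).trans
    ((finrank_span_finset_le_card _).trans Finset.card_le_two)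

open Classical in
/-- The case of equality. -/
theorem eq_case [Fintype α] (hS : SysC k F d D ep) {ι : Type} [Fintype ι]
    (G : ι → MvPolynomial (Fin (n + 1)) k) (e : ι → ℕ) (hG : ∀ j, (G j).IsHomogeneous (e j))
    {β : Type} (Q : β → MvPolynomial (Fin (n + 1)) k) (q : β → ℕ)
    (hQ : ∀ b, (Q b).IsHomogeneous (q b))
    (hsm : ∀ y : Fin (n + 1) → k, y ≠ 0 → (∀ j, eval y (G j) = 0) → (∀ b, eval y (Q b) = 0) →
      LinearIndependent k fun (j : ι) (l : Fin (n + 1)) => eval y (pderiv l (G j)))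
    (hDG : ∀ a I j J, D a I (algebraMap k K ((G j).coeff J)) = 0) {m : ℕ}
    (hn : n = m + Fintype.card ι) {x : Fin (n + 1) → K}
    (hxG : ∀ j, eval x (map (algebraMap k K) (G j)) = 0)
    (hxQ : ∀ b, eval x (map (algebraMap k K) (Q b)) = 0)
    (hnc : ∀ (c : K) (y : Fin (n + 1) → k), x ≠ c • fun l => algebraMap k K (y l))
    (hz : (Finset.univ.filter fun a => eval x (F a) = 0).card + 2 ≤ m)
    (hle : ∑ᶠ P : Place k K, (if ∃ a,
        eval x (F a) ≠ 0 ∧ d a * pord P x < P.ord (eval x (F a)) then 1 else 0) + canDeg k K ≤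
      ((∑ a, (d a : ℤ)) + ((Finset.univ.filter fun a => eval x (F a) = 0).card : ℤ) -
        2 * m + min 2 (∑ j, ((e j - 1 : ℕ) : ℤ))) * pht k x) :
    Module.finrank k (Submodule.span k (Set.range x)) ≤ 2 ∨
      ((Finset.univ.filter fun a => eval x (F a) = 0).card + 2 = m ∧
        2 ≤ ∑ j, ((e j - 1 : ℕ) : ℤ) ∧
          Module.finrank k (Submodule.span k (Set.range x)) ≤ m) := by
  have hx0 : x ≠ 0 := by
    intro h
    apply hnc 0 0
    rw [h, zero_smul]
  obtain ⟨l0, hl0⟩ := Function.ne_iff.1 hx0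
  have hl0' : x l0 ≠ 0 := hl0
  obtain ⟨E, hEd⟩ : ∃ E : Derivation k K K, E = der k K := ⟨_, rfl⟩
  have hE : E ≠ 0 := by rw [hEd]; exact der_ne
  have hxE : ∀ c : K, (fun l => E.restrictScalars ℤ (x l)) ≠ c • x := by
    intro c hc
    have h1 : ∀ l, E (x l) = c * x l := fun l => congrFun hc l
    have h2 : ∀ l, E (x l * (x l0)⁻¹) = 0 := by
      intro l
      rw [E.leibniz, Derivation.leibniz_inv, h1, h1]
      simp only [smul_eq_mul]
      field_simp
      ring
    choose y hy using fun l => const_of_der hE (h2 l)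
    apply hnc (x l0) y
    funext l
    rw [Pi.smul_apply, smul_eq_mul, ← hy l]
    field_simp
  have hpht := pht_pos hnc
  obtain ⟨v, hdet, hmin⟩ := exists_min (tw d D (E.restrictScalars ℤ) x l0) Gt.lev span_tw
  have hv := adapted_of_min (tw d D (E.restrictScalars ℤ) x l0) Gt.lev hdet hmin
  obtain ⟨b0, hb0⟩ : ∃ b0 : Matrix (Fin (n + 1)) (Fin (n + 1)) K,
    b0 = Matrix.of fun t => tw d D (E.restrictScalars ℤ) x l0 (v t) := ⟨_, rfl⟩
  have hb0t : ∀ t, b0 t = tw d D (E.restrictScalars ℤ) x l0 (v t) := fun t => by rw [hb0]; rfl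
  have hb0d : b0.det ≠ 0 := by rw [hb0]; exact hdet
  obtain ⟨t1, ht1⟩ := sel_x3 hx0 hdet hv
  obtain ⟨t0, ht0'⟩ := sel_t3 hxE hdet hv
  have ht0 : ∀ t, v t = Gt.t ↔ t = t0 := fun t =>
    ⟨fun h => card_t3 hdet ht0' t h, fun h => by rw [h, ht0']⟩
  have hselv := sel_v3 hS hl0' hdet hv
  obtain ⟨T, hTd⟩ : ∃ T : Finset (Fin (n + 1)), T = Finset.univ.filter fun t => (v t).lev ≤ 3 :=
    ⟨_, rfl⟩
  have hTc : T.card ≤ m + 1 := by
    obtain ⟨P0, -⟩ := exists_place (k := k) (K := K)
    obtain ⟨A0, -, hA0, -⟩ := exists_dual_rows G e hG Q q hQ hsm hx0 hxG hxQ P0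
    have hW := finrank_ker_le (fun j => dL (map (algebraMap k K) (G j)) x) A0 hA0
    rw [hTd]
    refine card_T3 hdet (LinearMap.ker (LinearMap.pi fun j =>
      dL (map (algebraMap k K) (G j)) x)) (by omega) fun g hg => ?_
    rw [LinearMap.mem_ker]
    funext j
    exact J_tw hG hDG hxG E j g hg
  obtain ⟨S, hSd⟩ : ∃ S : Finset α, S = Finset.univ.filter fun a => ∀ t, v t ≠ Gt.v a := ⟨_, rfl⟩
  have hSv : ∀ a ∈ S, ∀ t, v t ≠ Gt.v a := fun a ha => by
    rw [hSd, Finset.mem_filter] at ha
    exact ha.2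
  have hSn : ∀ a ∉ S, ∃ t, v t = Gt.v a := fun a ha => by
    rw [hSd, Finset.mem_filter, not_and] at ha
    have := ha (Finset.mem_univ _)
    push Not at this
    exact this
  have hS0 : ∀ a ∈ S, eval x (F a) ≠ 0 := by
    intro a ha h0
    obtain ⟨t, ht⟩ := hselv a h0
    exact hSv a ha t ht
  obtain ⟨w, hw⟩ : ∃ w : ℤ, w = ∑ t, (v t).wt d := ⟨_, rfl⟩
  have hprod0 : ∏ a ∈ S, eval x (F a) ≠ 0 := Finset.prod_ne_zero_iff.2 hS0
  obtain ⟨cnt, hcnt⟩ : ∃ cnt : Place k K → ℤ, ∀ P, cnt P = if ∃ a, eval x (F a) ≠ 0 ∧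
      d a * pord P x < P.ord (eval x (F a)) then 1 else 0 := ⟨_, fun _ => rfl⟩
  have hcfin : {P | cnt P ≠ 0}.Finite := by
    have hp := pord_finite (k := k) (Function.ne_iff.1 hx0)
    have h1 : (⋃ a : α, {P : Place k K | P.ord (eval x (F a)) ≠ 0}).Finite :=
      Set.finite_iUnion fun a => finite_ne
    refine (h1.union hp).subset fun P hP => ?_
    by_contra hcon
    simp only [Set.mem_union, Set.mem_iUnion, Set.mem_ofPred_eq, not_or, not_exists, not_not] at hcon
    obtain ⟨h2, h3⟩ := hcon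
    have h3' : pord P x = 0 := by
      by_contra h
      exact h3 h
    apply hP
    rw [hcnt, if_neg]
    rintro ⟨a, -, h5⟩
    rw [h2 a, h3', mul_zero] at h5
    exact lt_irrefl _ h5
  simp only [← hcnt] at hle
  obtain ⟨z, hzd⟩ : ∃ z : ℤ, z = ((Finset.univ.filter fun a => eval x (F a) = 0).card : ℤ) :=
    ⟨_, rfl⟩
  have hz' : z + 2 ≤ m := by rw [hzd]; exact_mod_cast hz
  obtain ⟨s, hsd⟩ : ∃ s : ℤ, s = ∑ j, ((e j - 1 : ℕ) : ℤ) := ⟨_, rfl⟩
  rw [← hzd, ← hsd] at hle
  rw [← hsd]
  have hzS : z ≤ Sᶜ.card := by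
    have : (Finset.univ.filter fun a => eval x (F a) = 0) ⊆ Sᶜ := by
      intro a ha
      rw [Finset.mem_compl]
      intro haS
      exact hS0 a haS (Finset.mem_filter.1 ha).2
    rw [hzd]
    exact_mod_cast Finset.card_le_card this
  have hsumS : ∑ a ∈ S, (d a : ℤ) + ∑ a ∈ Sᶜ, (d a : ℤ) = ∑ a, (d a : ℤ) :=
    Finset.sum_add_sum_compl S _
  have hwM : ∀ M : ℤ, (T.card : ℤ) ≤ M + 1 → (∑ a, (d a : ℤ)) + z - 2 * M ≤
        ∑ a ∈ S, (d a : ℤ) - w := by
    intro M hM
    rw [hTd] at hM
    have hwt := sum_wt3 (d := d) ht1 ht0' hM S hSn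
    have h2 : ∑ a ∈ Sᶜ, ((d a : ℤ) + 1) = ∑ a ∈ Sᶜ, (d a : ℤ) + Sᶜ.card := by
      rw [Finset.sum_add_distrib]
      simp
    rw [h2] at hwt
    rw [hw]
    linarith
  -- the exchange of a generator of level two
  have hexch : ∀ (ts : Fin (n + 1)) (a : α) (M : Fin (n + 1) →₀ ℕ) (i j i' j' : Fin (n + 1)),
      v ts = Gt.de a M i j → (b0.updateRow ts (gw d D x l0 (Gn.de a M i' j'))).det ≠ 0 →
      ∃ v' : Fin (n + 1) → Gt α n, (∀ t, t ≠ ts → v' t = v t) ∧
        (b0.updateRow ts (gw d D x l0 (Gn.de a M i' j')) =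
          Matrix.of fun t => tw d D (E.restrictScalars ℤ) x l0 (v' t)) ∧
        (∀ g (c : Fin (n + 1) → K), tw d D (E.restrictScalars ℤ) x l0 g =
          ∑ s, c s • tw d D (E.restrictScalars ℤ) x l0 (v' s) →
          ∀ s, c s ≠ 0 → (v' s).lev ≤ g.lev) ∧
        T = (Finset.univ.filter fun t => (v' t).lev ≤ 3) ∧ (∀ t, v' t = Gt.t ↔ t = t0) ∧
        (∀ a ∈ S, ∀ t, v' t ≠ Gt.v a) ∧ ∀ t, (v' t).wt d = (v t).wt d := by
    intro ts a M i j i' j' hts hb1d
    obtain ⟨v', hv'⟩ : ∃ v' : Fin (n + 1) → Gt α n,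
      v' = Function.update v ts (Gt.de a M i' j') := ⟨_, rfl⟩
    have hv's : v' ts = Gt.de a M i' j' := by rw [hv', Function.update_self]
    have hv'n : ∀ t, t ≠ ts → v' t = v t := fun t ht => by
      rw [hv', Function.update_of_ne ht]
    have hts0 : ts ≠ t0 := by
      intro h
      rw [h, ht0'] at hts
      exact absurd hts (by simp)
    have hlev : ∀ t, (v' t).lev = (v t).lev := by
      intro t
      by_cases ht : t = ts
      · rw [ht, hv's, hts]; rfl
      · rw [hv'n t ht]
    have hwt : ∀ t, (v' t).wt d = (v t).wt d := by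
      intro t
      by_cases ht : t = ts
      · rw [ht, hv's, hts]; rfl
      · rw [hv'n t ht]
    have hb1 : b0.updateRow ts (gw d D x l0 (Gn.de a M i' j')) =
        Matrix.of fun t => tw d D (E.restrictScalars ℤ) x l0 (v' t) := by
      ext t l
      by_cases ht : t = ts
      · rw [ht, Matrix.updateRow_self, Matrix.of_apply, hv's]; rfl
      · rw [Matrix.updateRow_ne ht, Matrix.of_apply, hv'n t ht, hb0t]
    have hdet1 : (Matrix.of fun t => tw d D (E.restrictScalars ℤ) x l0 (v' t)).det ≠ 0 := by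
      rw [← hb1]; exact hb1d
    have hmin1 : ∀ v'' : Fin (n + 1) → Gt α n,
        (Matrix.of fun t => tw d D (E.restrictScalars ℤ) x l0 (v'' t)).det ≠ 0 →
        ∑ t, (v' t).lev ≤ ∑ t, (v'' t).lev := by
      intro v'' h
      rw [Finset.sum_congr rfl fun t _ => hlev t]
      exact hmin v'' h
    refine ⟨v', hv'n, hb1, adapted_of_min (tw d D (E.restrictScalars ℤ) x l0) Gt.lev hdet1 hmin1,
      ?_, ?_, ?_, hwt⟩
    · rw [hTd]
      ext t
      rw [Finset.mem_filter, Finset.mem_filter, hlev]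
    · intro t
      by_cases ht : t = ts
      · rw [ht, hv's]
        exact ⟨fun h => absurd h (by simp), fun h => absurd h hts0⟩
      · rw [hv'n t ht]; exact ht0 t
    · intro a ha t
      by_cases ht : t = ts
      · rw [ht, hv's]; simp
      · rw [hv'n t ht]; exact hSv a ha t
  by_cases hcase : T.card = m + 1
  · -- the vectors span the tangent space
    left
    have hcard : Fintype.card ι = Fintype.card {t // ¬ t ∈ T} := by
      rw [Fintype.card_of_subtype Tᶜ (fun t => Finset.mem_compl), Finset.card_compl, hcase,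
        Fintype.card_fin]
      omega
    obtain ⟨ε⟩ : Nonempty (ι ≃ {t // ¬ t ∈ T}) := ⟨Fintype.equivOfCardEq hcard⟩
    obtain ⟨hJ0, hloc⟩ := local_B hS hG hQ hsm hDG hxG hxQ hE hl0' hdet hv hTd ht0 S hSv hS0 ε
    obtain ⟨J0, hJ0d⟩ : ∃ J0 : K, J0 = (Matrix.of fun u j => dL (map (algebraMap k K) (G j)) x
      (tw d D (E.restrictScalars ℤ) x l0 (v (ε u)))).det := ⟨_, rfl⟩
    rw [← hJ0d] at hJ0 hloc
    have hloc1 : ∀ P : Place k K, (w - ∑ a ∈ S, (d a : ℤ) - s) * pord P x - cnt P + vo P E ≤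
        P.ord (b0.det / J0 / ∏ a ∈ S, eval x (F a)) := by
      intro P
      rw [hcnt, hw, hb0, hsd]
      convert hloc P
    have hglob := global_of_local hE hx0 _ _ cnt hcfin hloc1
    have h6 := hwM m (by rw [hcase]; push_cast; exact le_rfl)
    have h7 := min_le_right (2 : ℤ) s
    -- there is a generator of level two
    obtain ⟨ts, a, M, i, j, hts⟩ : ∃ t a M i j, v t = Gt.de a M i j := by
      by_contra hcon
      push Not at hcon
      have h1 := wt_le_of_no_de (d := d) hcon hTd S hSn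
      rw [← hw, hcase] at h1
      push_cast at h1
      have h2 : ((∑ a, (d a : ℤ)) + z - 2 * m + min 2 s) + 1 ≤
          -(w - ∑ a ∈ S, (d a : ℤ) - s) := by linarith
      have h3 := mul_le_mul_of_nonneg_right h2 (by omega : 0 ≤ pht k x)
      have h4 := h3.trans (hglob.trans hle)
      rw [add_mul] at h4
      linarith
    have hleA : ∑ᶠ P, cnt P + canDeg k K ≤ -(w - ∑ a ∈ S, (d a : ℤ) - s) * pht k x := by
      refine hle.trans (mul_le_mul_of_nonneg_right ?_ (by omega))
      linarith
    have htsT : ts ∈ T := by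
      rw [hTd, Finset.mem_filter, hts]
      exact ⟨Finset.mem_univ _, by simp [Gt.lev]⟩
    refine line_of_de (d := d) (D := D) (l0 := l0) hE hx0 hcfin hleA hb0d
      (R := J0 * ∏ a ∈ S, eval x (F a)) (mul_ne_zero hJ0 hprod0)
      (fun P => by
        have h1 := hloc1 P
        rwa [div_div] at h1) (by rw [hb0t, hts]; rfl : b0 ts = gw d D x l0 (Gn.de a M i j))
      fun i' j' hb1d P => ?_
    obtain ⟨v', hv'n, hb1, hv1, hTd1, ht01, hSv1, hwt⟩ := hexch ts a M i j i' j' hts hb1d
    have hdet1 : (Matrix.of fun t => tw d D (E.restrictScalars ℤ) x l0 (v' t)).det ≠ 0 := by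
      rw [← hb1]; exact hb1d
    have h2 := (local_B hS hG hQ hsm hDG hxG hxQ hE hl0' hdet1 hv1 hTd1 ht01 S hSv1 hS0 ε).2 P
    have h3 : (Matrix.of fun u j => dL (map (algebraMap k K) (G j)) x
        (tw d D (E.restrictScalars ℤ) x l0 (v' (ε u)))) =
        (Matrix.of fun u j => dL (map (algebraMap k K) (G j)) x
        (tw d D (E.restrictScalars ℤ) x l0 (v (ε u)))) := by
      ext u j
      rw [Matrix.of_apply, Matrix.of_apply, hv'n]
      intro h
      exact (ε u).2 (h ▸ htsT)
    rw [h3, ← hJ0d, ← hb1, Finset.sum_congr rfl fun t _ => hwt t, div_div] at h2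
    rw [hcnt, hw, hsd]
    convert h2
  · have hTc' : T.card ≤ m := by omega
    have hTeq : ∀ t ∉ T, ∃ i, v t = Gt.e i := fun t ht => by
      rw [hTd, Finset.mem_filter, not_and] at ht
      have ht := ht (Finset.mem_univ _)
      rcases hvt : v t with _ | _ | ⟨a, M, i, j⟩ | a | i
      · rw [hvt] at ht; exact absurd (by simp [Gt.lev]) ht
      · rw [hvt] at ht; exact absurd (by simp [Gt.lev]) ht
      · rw [hvt] at ht; exact absurd (by simp [Gt.lev]) ht
      · rw [hvt] at ht; exact absurd (by simp [Gt.lev]) ht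
      · exact ⟨i, rfl⟩
    have hsing : ∀ i l : Fin (n + 1), ∀ P : Place k K,
        Ge P 0 ((Pi.single i 1 : Fin (n + 1) → K) l) := by
      intro i l P
      by_cases hl : l = i
      · rw [hl, Pi.single_eq_same]; exact Ge.one
      · rw [Pi.single_eq_of_ne hl]; exact Ge.zero
    have hloc : ∀ b : Matrix (Fin (n + 1)) (Fin (n + 1)) K, b.det ≠ 0 →
        (∀ t ∈ T, b t = tw d D (E.restrictScalars ℤ) x l0 (v t)) →
        (∀ t ∉ T, ∀ l, ∀ P : Place k K, Ge P 0 (b t l)) → ∀ P : Place k K,
        (w - ∑ a ∈ S, (d a : ℤ)) * pord P x - cnt P + vo P E ≤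
          P.ord (b.det / ∏ a ∈ S, eval x (F a)) := by
      intro b hbd hb hbn P
      have h3 := local_S hS hE hl0' v hTd hbd hb
        (le_of_agree hdet hv hTd hb) ht0 S hSv hS0 P (fun t ht l => hbn t ht l P)
      rw [P.ord_div hbd hprod0, ord_prod_of P S _ hS0, hcnt, hw]
      convert h3
    have hb0n : ∀ t ∉ T, ∀ l, ∀ P : Place k K, Ge P 0 (b0 t l) := by
      intro t ht l P
      obtain ⟨i, hi⟩ := hTeq t ht
      rw [hb0t, hi]
      exact hsing i l P
    have hloc0 := hloc b0 hb0d (fun t _ => hb0t t) hb0n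
    have hglob := global_of_local hE hx0 _ _ cnt hcfin hloc0
    have h6 := hwM (m - 1) (by
      have : (T.card : ℤ) ≤ m := by exact_mod_cast hTc'
      linarith)
    have hmin2 := min_le_left (2 : ℤ) s
    have hs2 : 2 ≤ s := by
      by_contra hcon
      push Not at hcon
      have h1 : min 2 s ≤ 1 := (min_le_right _ _).trans (by omega)
      have h2 : ((∑ a, (d a : ℤ)) + z - 2 * m + min 2 s) + 1 ≤
          -(w - ∑ a ∈ S, (d a : ℤ)) := by linarith
      have h3 := mul_le_mul_of_nonneg_right h2 (by omega : 0 ≤ pht k x)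
      have h4 := h3.trans (hglob.trans hle)
      rw [add_mul] at h4
      linarith
    have hleA : ∑ᶠ P, cnt P + canDeg k K ≤ -(w - ∑ a ∈ S, (d a : ℤ)) * pht k x := by
      refine hle.trans (mul_le_mul_of_nonneg_right ?_ (by omega))
      linarith
    by_cases hzm : z + 3 ≤ m
    · -- there is a generator of level two
      left
      obtain ⟨ts, a, M, i, j, hts⟩ : ∃ t a M i j, v t = Gt.de a M i j := by
        by_contra hcon
        push Not at hcon
        have h1 := wt_le_of_no_de (d := d) hcon hTd S hSn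
        rw [← hw] at h1
        have hTc2 : (T.card : ℤ) ≤ m := by exact_mod_cast hTc'
        have h2 : ((∑ a, (d a : ℤ)) + z - 2 * m + min 2 s) + 1 ≤
            -(w - ∑ a ∈ S, (d a : ℤ)) := by linarith
        have h3 := mul_le_mul_of_nonneg_right h2 (by omega : 0 ≤ pht k x)
        have h4 := h3.trans (hglob.trans hle)
        rw [add_mul] at h4
        linarith
      refine line_of_de (d := d) (D := D) (l0 := l0) hE hx0 hcfin hleA hb0d
        (R := ∏ a ∈ S, eval x (F a)) hprod0 hloc0
        (by rw [hb0t, hts]; rfl : b0 ts = gw d D x l0 (Gn.de a M i j))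
        fun i' j' hb1d P => ?_
      have htsT : ts ∈ T := by
        rw [hTd, Finset.mem_filter, hts]
        exact ⟨Finset.mem_univ _, by simp [Gt.lev]⟩
      obtain ⟨v', hv'n, hb1, hv1, hTd1, ht01, hSv1, hwt⟩ := hexch ts a M i j i' j' hts hb1d
      have hdet1 : (Matrix.of fun t => tw d D (E.restrictScalars ℤ) x l0 (v' t)).det ≠ 0 := by
        rw [← hb1]; exact hb1d
      have hb1t : ∀ t, (b0.updateRow ts (gw d D x l0 (Gn.de a M i' j'))) t =
          tw d D (E.restrictScalars ℤ) x l0 (v' t) := fun t => by rw [hb1]; rfl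
      have h3 := local_S hS hE hl0' v' hTd1 hb1d (fun t _ => hb1t t)
        (le_of_agree hdet1 hv1 hTd1 fun t _ => hb1t t) ht01 S hSv1 hS0 P (fun t ht l => by
          have htt : t ≠ ts := by
            rintro rfl
            exact ht htsT
          rw [Matrix.updateRow_ne htt]
          exact hb0n t ht l P)
      rw [Finset.sum_congr rfl fun t _ => hwt t] at h3
      rw [P.ord_div hb1d hprod0, ord_prod_of P S _ hS0, hcnt, hw]
      convert h3
    right
    refine ⟨by
      have h1 : z + 2 = m := by omega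
      rw [hzd] at h1
      exact_mod_cast h1, hs2, ?_⟩
    have hconst : ∀ (u : {t // ¬ t ∈ T}) (l : Fin (n + 1)), ∃ c : k,
        (b0.updateRow u (Pi.single l 1)).det = algebraMap k K c * b0.det := by
      intro u l
      obtain ⟨b1, hb1⟩ : ∃ b1 : Matrix (Fin (n + 1)) (Fin (n + 1)) K,
        b1 = b0.updateRow u (Pi.single l 1) := ⟨_, rfl⟩
      obtain ⟨c, hc⟩ := const_ratio hE hx0 (Θ := b0.det / ∏ a ∈ S, eval x (F a))
        (Θ' := b1.det / ∏ a ∈ S, eval x (F a)) (div_ne_zero hb0d hprod0)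
        hcfin hleA hloc0 (fun h0 => by
          have hb1d0 : b1.det ≠ 0 := by
            intro h
            apply h0
            rw [h, zero_div]
          refine hloc b1 hb1d0 (fun t ht => ?_) fun t ht l' P => ?_
          · have htu : t ≠ u := by
              rintro rfl
              exact u.2 ht
            rw [hb1, Matrix.updateRow_ne htu, hb0t]
          · by_cases htu : t = u
            · rw [htu, hb1, Matrix.updateRow_self]
              exact hsing l l' P
            · rw [hb1, Matrix.updateRow_ne htu]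
              exact hb0n t ht l' P)
      refine ⟨c, ?_⟩
      rw [← hb1]
      have h4 : b1.det = (b1.det / ∏ a ∈ S, eval x (F a)) * ∏ a ∈ S, eval x (F a) := by
        field_simp
      rw [h4, hc]
      field_simp
    choose ℓ hℓ using hconst
    have hlin : ∀ (u : {t // ¬ t ∈ T}) (y : Fin (n + 1) → K),
        (b0.updateRow u y).det = (∑ l, algebraMap k K (ℓ u l) * y l) * b0.det := by
      intro u y
      obtain ⟨φ, hφ⟩ := exists_lin b0 (u : Fin (n + 1))
      rw [← hφ, LinearMap.pi_apply_eq_sum_univ φ y, Finset.sum_mul]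
      refine Finset.sum_congr rfl fun l _ => ?_
      have h1 : (fun j => if l = j then (1 : K) else 0) = Pi.single l 1 := by
        funext j
        by_cases h : l = j
        · rw [if_pos h, h, Pi.single_eq_same]
        · rw [if_neg h, Pi.single_eq_of_ne fun h' => h h'.symm]
      rw [h1, hφ, hℓ, smul_eq_mul]
      ring
    have ht1T : t1 ∈ T := by
      rw [hTd, Finset.mem_filter, ht1]
      exact ⟨Finset.mem_univ _, by simp [Gt.lev]⟩
    have hrel : ∀ u, ∑ l, algebraMap k K (ℓ u l) * x l = 0 := by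
      intro u
      have h1 := hlin u x
      have hne : (u : Fin (n + 1)) ≠ t1 := by
        intro h
        exact u.2 (h ▸ ht1T)
      have h2 : (b0.updateRow u x).det = 0 := by
        refine Matrix.det_zero_of_row_eq hne ?_
        rw [Matrix.updateRow_self, Matrix.updateRow_ne hne.symm, hb0t, ht1]
        rfl
      rw [h2] at h1
      exact (mul_eq_zero.1 h1.symm).resolve_right hb0d
    choose ii hii using fun u : {t // ¬ t ∈ T} => hTeq u u.2
    have hdel : ∀ u u' : {t // ¬ t ∈ T}, ℓ u (ii u') = if u = u' then 1 else 0 := by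
      intro u u'
      have h1 := hlin u (b0 u')
      have h2 : b0 u' = Pi.single (ii u') 1 := by
        rw [hb0t, hii]
        rfl
      have h3 : ∑ l, algebraMap k K (ℓ u l) * b0 u' l = algebraMap k K (ℓ u (ii u')) := by
        rw [Finset.sum_eq_single (ii u')]
        · rw [h2, Pi.single_eq_same, mul_one]
        · intro l _ hl
          rw [h2, Pi.single_eq_of_ne hl, mul_zero]
        · intro h; exact absurd (Finset.mem_univ _) h
      rw [h3] at h1
      apply (algebraMap k K).injective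
      apply mul_right_cancel₀ hb0d
      rw [← h1]
      by_cases h : u = u'
      · rw [if_pos h, h, Matrix.updateRow_eq_self, map_one, one_mul]
      · rw [if_neg h, map_zero, zero_mul]
        have hne : (u : Fin (n + 1)) ≠ u' := fun h' => h (Subtype.ext h')
        refine Matrix.det_zero_of_row_eq hne ?_
        rw [Matrix.updateRow_self, Matrix.updateRow_ne hne.symm]
    have hli : LinearIndependent k ℓ := by
      rw [Fintype.linearIndependent_iff]
      intro g hg u'
      have h1 := congrFun hg (ii u')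
      rw [Finset.sum_apply, Finset.sum_eq_single u'] at h1
      · rw [Pi.smul_apply, hdel, if_pos rfl, smul_eq_mul, mul_one] at h1
        exact h1
      · intro u _ hu
        rw [Pi.smul_apply, hdel, if_neg hu, smul_zero]
      · intro h; exact absurd (Finset.mem_univ _) h
    have h8 := finrank_span_le ℓ hli hrel
    rw [Fintype.card_of_subtype Tᶜ (fun t => Finset.mem_compl), Finset.card_compl,
      Fintype.card_fin] at h8
    have h9 : T.card ≤ n + 1 := by
      have := Finset.card_le_univ T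
      rwa [Fintype.card_fin] at this
    omega

end Pool.Agent.TH812.GV3
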