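import Pool.Agent.TH812.GV2.Loss
import Pool.Agent.TH812.GV2.Exch
import Pool.Agent.TH812.GV.Glob

/-!
The vector fields of a system of forms with independent constant coefficients, together with the
tangent vector of a curve.
-/

set_option autoImplicit false

open MvPolynomial FF Pool.Agent.W603.LV Pool.Agent.W603.PV Pool.Agent.TH145.GH

namespace Pool.Agent.TH812.GV3

open Pool.Agent.TH812.GV

variable {K : Type} [Field K] {n : ℕ} {α : Type}

/-- The generators, with the tangent vector `t` of the curve. -/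
inductive Gt (α : Type) (n : ℕ) where
  | x : Gt α n
  | t : Gt α n
  | de (a : α) (M : Fin (n + 1) →₀ ℕ) (i j : Fin (n + 1)) : Gt α n
  | v (a : α) : Gt α n
  | e (i : Fin (n + 1)) : Gt α n

/-- The level. -/
def Gt.lev : Gt α n → ℕ
  | .x => 0
  | .t => 1
  | .de _ _ _ _ => 2
  | .v _ => 3
  | .e _ => 4

/-- The weight. -/
def Gt.wt (d : α → ℕ) : Gt α n → ℤ
  | .x => 1
  | .t => 1
  | .de _ _ _ _ => 2
  | .v a => 1 - d a
  | .e _ => 0

/-- The vector fields. -/
noncomputable def tw (d : α → ℕ) (D : α → (Fin (n + 1) →₀ ℕ) → Derivation ℤ K K)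
    (E : Derivation ℤ K K) (x : Fin (n + 1) → K) (l0 : Fin (n + 1)) : Gt α n → Fin (n + 1) → K
  | .x => x
  | .t => fun l => E (x l)
  | .de a M i j => gw d D x l0 (Gn.de a M i j)
  | .v a => gw d D x l0 (Gn.v a)
  | .e i => Pi.single i 1

/-- The spans of the generators of bounded level. -/
noncomputable def Ht (d : α → ℕ) (D : α → (Fin (n + 1) →₀ ℕ) → Derivation ℤ K K)
    (E : Derivation ℤ K K) (x : Fin (n + 1) → K) (l0 : Fin (n + 1)) (L : ℕ) :
    Submodule K (Fin (n + 1) → K) :=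
  Submodule.span K (tw d D E x l0 '' {g | g.lev ≤ L})

variable {d : α → ℕ} {D : α → (Fin (n + 1) →₀ ℕ) → Derivation ℤ K K} {E : Derivation ℤ K K}
  {x : Fin (n + 1) → K} {l0 : Fin (n + 1)}

theorem Ht_mono {L L' : ℕ} (h : L ≤ L') : Ht d D E x l0 L ≤ Ht d D E x l0 L' :=
  Submodule.span_mono (Set.image_mono fun _ hg => le_trans hg h)

theorem tw_mem (g : Gt α n) : tw d D E x l0 g ∈ Ht d D E x l0 g.lev :=
  Submodule.subset_span ⟨g, le_refl g.lev, rfl⟩

theorem xt_mem (L : ℕ) : x ∈ Ht d D E x l0 L :=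
  Submodule.subset_span ⟨Gt.x, Nat.zero_le _, rfl⟩

theorem tt_mem {L : ℕ} (hL : 1 ≤ L) : (fun l => E (x l)) ∈ Ht d D E x l0 L :=
  Submodule.subset_span ⟨Gt.t, hL, rfl⟩

theorem Hs_le_Ht : Hs d D x l0 1 ≤ Ht d D E x l0 2 := by
  unfold Hs
  rw [Submodule.span_le]
  rintro _ ⟨g, hg, rfl⟩
  rcases g with _ | ⟨a, M, i, j⟩ | a | i
  · exact xt_mem 2
  · exact tw_mem (E := E) (Gt.de a M i j)
  · exact absurd hg (by simp [Gn.lev])
  · exact absurd hg (by simp [Gn.lev])

/-- All derivatives with respect to the coefficients of one form are proportional modulo the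
vectors of level at most two. -/
theorem Dt_mem (hx : x l0 ≠ 0) (a : α) {I : Fin (n + 1) →₀ ℕ} (hI : I.degree = d a) :
    (fun l => D a I (x l)) - mon x I • gw d D x l0 (Gn.v a) ∈ Ht d D E x l0 2 :=
  Hs_le_Ht (D_mem hx a _ I hI rfl)

theorem Ht_le {v : Fin (n + 1) → Gt α n}
    (hdet : (Matrix.of fun t => tw d D E x l0 (v t)).det ≠ 0)
    (hv : ∀ g (c : Fin (n + 1) → K), tw d D E x l0 g = ∑ s, c s • tw d D E x l0 (v s) →
      ∀ s, c s ≠ 0 → (v s).lev ≤ g.lev) (L : ℕ) :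
    Ht d D E x l0 L ≤ Submodule.span K ((fun t => tw d D E x l0 (v t)) ''
      (Finset.univ.filter fun t => (v t).lev ≤ L : Finset (Fin (n + 1)))) := by
  classical
  unfold Ht
  rw [Submodule.span_le]
  rintro _ ⟨g, hg, rfl⟩
  obtain ⟨c, hc⟩ := exists_coord hdet (tw d D E x l0 g)
  have hc' : tw d D E x l0 g = ∑ s, c s • tw d D E x l0 (v s) := hc
  rw [hc']
  refine Submodule.sum_mem _ fun s _ => ?_
  by_cases hs : c s = 0
  · rw [hs, zero_smul]; exact zero_mem _
  · refine Submodule.smul_mem _ _ (Submodule.subset_span ⟨s, ?_, rfl⟩)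
    rw [Finset.mem_coe, Finset.mem_filter]
    exact ⟨Finset.mem_univ _, (hv g c hc' s hs).trans hg⟩

theorem span_tw : Submodule.span K (Set.range (tw d D E x l0)) = ⊤ := by
  rw [eq_top_iff, ← (Pi.basisFun K (Fin (n + 1))).span_eq, Submodule.span_le]
  rintro _ ⟨i, rfl⟩
  refine Submodule.subset_span ⟨Gt.e i, ?_⟩
  rw [Pi.basisFun_apply]
  rfl

theorem sel_x3 (hx : x ≠ 0) {v : Fin (n + 1) → Gt α n}
    (hdet : (Matrix.of fun t => tw d D E x l0 (v t)).det ≠ 0)
    (hv : ∀ g (c : Fin (n + 1) → K), tw d D E x l0 g = ∑ s, c s • tw d D E x l0 (v s) →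
      ∀ s, c s ≠ 0 → (v s).lev ≤ g.lev) : ∃ t, v t = Gt.x := by
  obtain ⟨c, hc⟩ := exists_coord hdet (tw d D E x l0 Gt.x)
  have hc' : tw d D E x l0 Gt.x = ∑ s, c s • tw d D E x l0 (v s) := hc
  obtain ⟨s, hs⟩ : ∃ s, c s ≠ 0 := by
    by_contra hcon
    push Not at hcon
    apply hx
    have h1 : tw d D E x l0 (Gt.x : Gt α n) = x := rfl
    rw [← h1, hc']
    exact Finset.sum_eq_zero fun s _ => by rw [hcon s, zero_smul]
  refine ⟨s, ?_⟩
  have h2 := hv _ c hc' s hs
  rcases hvs : v s with _ | _ | ⟨a, M, i, j⟩ | a | i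
  · rfl
  all_goals
    rw [hvs] at h2
    exact absurd h2 (by simp [Gt.lev])

theorem sel_t3 (hxE : ∀ c : K, (fun l => E (x l)) ≠ c • x) {v : Fin (n + 1) → Gt α n}
    (hdet : (Matrix.of fun t => tw d D E x l0 (v t)).det ≠ 0)
    (hv : ∀ g (c : Fin (n + 1) → K), tw d D E x l0 g = ∑ s, c s • tw d D E x l0 (v s) →
      ∀ s, c s ≠ 0 → (v s).lev ≤ g.lev) : ∃ t, v t = Gt.t := by
  classical
  by_contra hcon
  push Not at hcon
  obtain ⟨c, hc⟩ := exists_coord hdet (tw d D E x l0 Gt.t)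
  have hc' : tw d D E x l0 Gt.t = ∑ s, c s • tw d D E x l0 (v s) := hc
  have h1 : ∀ s, c s ≠ 0 → v s = Gt.x := by
    intro s hs
    have h2 := hv _ c hc' s hs
    rcases hvs : v s with _ | _ | ⟨a, M, i, j⟩ | a | i
    · rfl
    · exact absurd hvs (hcon s)
    all_goals
      rw [hvs] at h2
      exact absurd h2 (by simp [Gt.lev])
  apply hxE (∑ s, c s)
  change tw d D E x l0 Gt.t = _
  rw [hc', Finset.sum_smul]
  refine Finset.sum_congr rfl fun s _ => ?_
  by_cases hs : c s = 0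
  · rw [hs, zero_smul, zero_smul]
  · rw [h1 s hs]
    rfl

/-- The tangent vector is selected at most once. -/
theorem card_t3 {v : Fin (n + 1) → Gt α n}
    (hdet : (Matrix.of fun t => tw d D E x l0 (v t)).det ≠ 0) {t0 : Fin (n + 1)}
    (ht0 : v t0 = Gt.t) (t : Fin (n + 1)) (ht : v t = Gt.t) : t = t0 := by
  by_contra hne
  apply hdet
  refine Matrix.det_zero_of_row_eq hne ?_
  funext l
  simp only [Matrix.of_apply, ht, ht0]

theorem card_T3 {v : Fin (n + 1) → Gt α n}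
    (hdet : (Matrix.of fun t => tw d D E x l0 (v t)).det ≠ 0) {m : ℕ}
    (W : Submodule K (Fin (n + 1) → K)) (hWm : Module.finrank K W ≤ m + 1)
    (hW : ∀ g : Gt α n, g.lev ≤ 3 → tw d D E x l0 g ∈ W) :
    (Finset.univ.filter fun t => (v t).lev ≤ 3).card ≤ m + 1 := by
  classical
  obtain ⟨T, hT⟩ : ∃ T : Finset (Fin (n + 1)), T = Finset.univ.filter fun t => (v t).lev ≤ 3 :=
    ⟨_, rfl⟩
  have hli := li_of_det hdet
  have hTm : ∀ t ∈ T, (v t).lev ≤ 3 := fun t h => by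
    rw [hT, Finset.mem_filter] at h
    exact h.2
  have h1 : LinearIndependent K fun t : T =>
      (⟨tw d D E x l0 (v t), hW _ (hTm t t.2)⟩ : W) := by
    apply LinearIndependent.of_comp W.subtype
    exact hli.comp (Subtype.val : T → Fin (n + 1)) Subtype.val_injective
  have h2 := h1.fintype_card_le_finrank
  rw [Fintype.card_coe] at h2
  rw [← hT]
  exact h2.trans hWm

open Classical in
/-- The total weight. -/
theorem sum_wt3 [Fintype α] {v : Fin (n + 1) → Gt α n} {t0 t1 : Fin (n + 1)} (ht0 : v t0 = Gt.x)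
    (ht1 : v t1 = Gt.t) {m : ℤ}
    (hT : ((Finset.univ.filter fun t => (v t).lev ≤ 3).card : ℤ) ≤ m + 1)
    (S : Finset α) (hS : ∀ a ∉ S, ∃ t, v t = Gt.v a) :
    ∑ t, (v t).wt d ≤ 2 * m - ∑ a ∈ Sᶜ, ((d a : ℤ) + 1) := by
  have h1 : ∀ g : Gt α n, g.wt d = 2 * (if g.lev ≤ 3 then 1 else 0) - (if g = Gt.x then 1 else 0) -
      (if g = Gt.t then 1 else 0) - ∑ a, (if g = Gt.v a then ((d a : ℤ) + 1) else 0) := by
    intro g
    rcases g with _ | _ | ⟨a, M, i, j⟩ | a | i
    · simp [Gt.wt, Gt.lev]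
    · simp [Gt.wt, Gt.lev]
    · simp [Gt.wt, Gt.lev]
    · simp only [Gt.wt, Gt.lev, Gt.v.injEq, Finset.sum_ite_eq, Finset.mem_univ, if_true]
      simp
      ring
    · simp [Gt.wt, Gt.lev]
  rw [Finset.sum_congr rfl fun t _ => h1 (v t), Finset.sum_sub_distrib, Finset.sum_sub_distrib,
    Finset.sum_sub_distrib, ← Finset.mul_sum, Finset.sum_boole, Finset.sum_comm]
  have h2 : (1 : ℤ) ≤ ∑ t, if v t = Gt.x then 1 else 0 := by
    have := Finset.single_le_sum (f := fun t => if v t = Gt.x then (1 : ℤ) else 0)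
      (fun t _ => by positivity) (Finset.mem_univ t0)
    simpa [ht0] using this
  have h2' : (1 : ℤ) ≤ ∑ t, if v t = Gt.t then 1 else 0 := by
    have := Finset.single_le_sum (f := fun t => if v t = Gt.t then (1 : ℤ) else 0)
      (fun t _ => by positivity) (Finset.mem_univ t1)
    simpa [ht1] using this
  have h3 : ∑ a ∈ Sᶜ, ((d a : ℤ) + 1) ≤
      ∑ a, ∑ t, (if v t = Gt.v a then ((d a : ℤ) + 1) else 0) := by
    have h4 : ∀ a, 0 ≤ ∑ t, (if v t = Gt.v a then ((d a : ℤ) + 1) else 0) := fun a =>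
      Finset.sum_nonneg fun t _ => by positivity
    refine le_trans (Finset.sum_le_sum fun a ha => ?_)
      (Finset.sum_le_sum_of_subset_of_nonneg (Finset.subset_univ Sᶜ) fun a _ _ => h4 a)
    obtain ⟨t, ht⟩ := hS a (Finset.mem_compl.1 ha)
    have := Finset.single_le_sum (f := fun t => if v t = Gt.v a then ((d a : ℤ) + 1) else 0)
      (fun t _ => by positivity) (Finset.mem_univ t)
    simpa [ht] using this
  linarith

end Pool.Agent.TH812.GV3
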