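import Pool.Agent.TH812.GV3.Gen
import Pool.Agent.TH812.GV2.Local

/-!
The local height inequality for curves in complete intersections with constant coefficients, with
the tangent vector of the curve.
-/

set_option autoImplicit false

open MvPolynomial FF Pool.Agent.W603.LV Pool.Agent.W603.PV Pool.Agent.TH145.GH

namespace Pool.Agent.TH812.GV3

open Pool.Agent.TH812.GV Pool.Agent.TH812.GV2

/-- Forms with constant coefficients, and derivations dual to the coefficients that preserve the
constants. -/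
structure SysC (k : Type) {K : Type} [Field k] [Field K] [Algebra k K] {n : ℕ} {α : Type}
    (F : α → MvPolynomial (Fin (n + 1)) K) (d : α → ℕ)
    (D : α → (Fin (n + 1) →₀ ℕ) → Derivation ℤ K K) (ep : α → (Fin (n + 1) →₀ ℕ) → ℕ) : Prop where
  hom : ∀ a, (F a).IsHomogeneous (d a)
  dual : DualS F d D ep
  const : ∀ a J, ∃ c : k, (F a).coeff J = algebraMap k K c
  sem : ∀ a I, Sem k (D a I)

theorem dL_der {K : Type} [Field K] {n : ℕ} {δ : Derivation ℤ K K}
    {p : MvPolynomial (Fin (n + 1)) K} (hc : ∀ J, δ (p.coeff J) = 0) (x : Fin (n + 1) → K) :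
    dL p x (fun l => δ (x l)) = δ (eval x p) := by
  have h1 := chainM δ x p
  rw [Finset.sum_eq_zero (fun u _ => by rw [hc, zero_mul]), zero_add] at h1
  rw [dL_apply, h1]
  rfl

variable {k K : Type} [Field k] [Field K] [Algebra k K] [IsAlgClosed k] [CharZero k] [IsFF k K]
  {n : ℕ} {α : Type} {F : α → MvPolynomial (Fin (n + 1)) K} {d : α → ℕ}
    {D : α → (Fin (n + 1) →₀ ℕ) → Derivation ℤ K K} {ep : α → (Fin (n + 1) →₀ ℕ) → ℕ}

theorem exists_locE {E : Derivation k K K} (hE : E ≠ 0) (P : Place k K) :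
    ∃ δ : Derivation ℤ K K, Loc P δ ∧ ∀ f, δ f = (E (unif P))⁻¹ * E f := by
  have h0 := der_pi_ne_zero hE P (ord_unif P)
  obtain ⟨δ, hδ⟩ : ∃ δ : Derivation k K K, δ = (E (unif P))⁻¹ • E := ⟨_, rfl⟩
  have hδπ : δ (unif P) = 1 := by
    rw [hδ]; simp [h0]
  have hc : ∀ c : k, (δ.restrictScalars ℤ) (algebraMap k K c) = 0 := fun c =>
    δ.map_algebraMap c
  refine ⟨δ.restrictScalars ℤ, ⟨hδπ, hc, fun f hf => ?_⟩, fun f => ?_⟩
  · refine reg_of_unif P (ord_unif P) (fun c => ⟨0, by rw [hc, map_zero]⟩) le_rfl ?_ hf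
    change Ge P 0 (δ (unif P))
    rw [hδπ]
    exact Ge.one
  · change δ f = _
    rw [hδ]
    rfl

open Classical in
/-- The local inequality. -/
theorem local_ge3 (hS : SysC k F d D ep) {E : Derivation k K K} (hE : E ≠ 0)
    {x : Fin (n + 1) → K} {l0 : Fin (n + 1)} (hx : x l0 ≠ 0) (v : Fin (n + 1) → Gt α n)
    {T : Finset (Fin (n + 1))} (hTd : T = Finset.univ.filter fun t => (v t).lev ≤ 3)
    {b : Matrix (Fin (n + 1)) (Fin (n + 1)) K} (hdet : b.det ≠ 0)
    (hbT : ∀ t ∈ T, b t = tw d D (E.restrictScalars ℤ) x l0 (v t))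
    (hle : ∀ L ≤ 3, Ht d D (E.restrictScalars ℤ) x l0 L ≤ Submodule.span K (b ''
      (Finset.univ.filter fun t => (v t).lev ≤ L : Finset (Fin (n + 1)))))
    {t0 : Fin (n + 1)} (ht0 : ∀ t, v t = Gt.t ↔ t = t0)
    (S : Finset α) (hSv : ∀ a ∈ S, ∀ t, v t ≠ Gt.v a) (hS0 : ∀ a ∈ S, eval x (F a) ≠ 0)
    (P : Place k K) (hbn : ∀ t ∉ T, ∀ l, Ge P 0 (b t l)) :
    (∑ t, (v t).wt d) * pord P x +
      ∑ a ∈ S, (P.ord (eval x (F a)) - d a * pord P x) - (if S = ∅ then 0 else 1) +
        vo P E ≤ P.ord b.det := by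
  have hx0 : x ≠ 0 := by
    rintro rfl
    exact hx rfl
  obtain ⟨δ, hδ, hδE⟩ := exists_locE hE P
  obtain ⟨c, hcd⟩ : ∃ c : K, c = (E (unif P))⁻¹ := ⟨_, rfl⟩
  rw [← hcd] at hδE
  have hEπ := der_pi_ne_zero hE P (ord_unif P)
  have hc0 : c ≠ 0 := by rw [hcd]; exact inv_ne_zero hEπ
  have hcord : P.ord c = -vo P E := by
    rw [hcd, P.ord_inv]; rfl
  obtain ⟨lam, x', hlam, hlamP, hxx, hx', l', hx1⟩ := exists_scaled P hx0
  have hxx' : x' = lam⁻¹ • x := by
    rw [hxx, smul_smul, inv_mul_cancel₀ hlam, one_smul]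
  -- the corrected derivations
  obtain ⟨DP, hDP⟩ : ∃ DP : α → (Fin (n + 1) →₀ ℕ) → Derivation ℤ K K,
      ∀ a I f, DP a I f = D a I f - D a I (unif P) * δ f :=
    ⟨fun a I => D a I - D a I (unif P) • δ, fun a I f => by simp⟩
  have hge : ∀ a I (g : ℤ) f, Ge P g f → Ge P g (DP a I f) := fun a I g f hf => by
    rw [hDP]
    exact sem_loc hδ (hS.sem a I) hf
  have hdual : DualS F d DP ep := by
    intro a c I J hI hJ
    obtain ⟨r, hr⟩ := hS.const c J
    have h1 := hS.dual a c I J hI hJ
    rw [hDP, h1, hr, hδ.2.1, mul_zero, sub_zero]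
  have hx'd : ∀ l, x' l = lam⁻¹ * x l := fun l => by rw [hxx']; rfl
  have hDx : ∀ (a : α) (I : Fin (n + 1) →₀ ℕ) (l : Fin (n + 1)), DP a I (x' l) =
      lam⁻¹ * D a I (x l) - lam⁻¹ * (D a I (unif P) * c) * E (x l) + DP a I lam⁻¹ * x l := by
    intro a I l
    rw [hx'd, (DP a I).leibniz, hDP a I (x l), hδE]
    simp only [smul_eq_mul]
    ring
  have hδx : ∀ l, δ (x' l) = lam⁻¹ * c * E (x l) + δ lam⁻¹ * x l := by
    intro l
    rw [hx'd, δ.leibniz, hδE (x l)]
    simp only [smul_eq_mul]
    ring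
  -- the local rows
  obtain ⟨br, hbrx, hbrt, hbrd, hbrv⟩ : ∃ br : Gt α n → Fin (n + 1) → K,
      br Gt.x = x' ∧ (br Gt.t = fun l => δ (x' l)) ∧
      (∀ a M i j, br (Gt.de a M i j) = gw d DP x' l0 (Gn.de a M i j)) ∧
      (∀ a, br (Gt.v a) = fun l => DP a (Finsupp.single l' (d a)) (x' l)) :=
    ⟨fun g => match g with
      | .x => x'
      | .t => fun l => δ (x' l)
      | .de a M i j => gw d DP x' l0 (Gn.de a M i j)
      | .v a => fun l => DP a (Finsupp.single l' (d a)) (x' l)
      | .e i => Pi.single i 1, rfl, rfl, fun _ _ _ _ => rfl, fun _ => rfl⟩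
  obtain ⟨τ, hτt, hτn⟩ : ∃ τ : Gt α n → K, τ Gt.t = c ∧ ∀ g, g ≠ Gt.t → τ g = 1 :=
    ⟨fun g => if g = Gt.t then c else 1, if_pos rfl, fun g hg => if_neg hg⟩
  have hmono : ∀ {L L' : ℕ}, L < L' → Submodule.span K (b ''
      (Finset.univ.filter fun t => (v t).lev ≤ L : Finset (Fin (n + 1)))) ≤
      Submodule.span K (b ''
        (Finset.univ.filter fun t => (v t).lev < L' : Finset (Fin (n + 1)))) := by
    intro L L' hL
    refine Submodule.span_mono (Set.image_mono fun t ht => ?_)
    rw [Finset.mem_coe, Finset.mem_filter] at ht ⊢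
    exact ⟨ht.1, lt_of_le_of_lt ht.2 hL⟩
  have htri : ∀ g : Gt α n, g.lev ≤ 3 → ∃ y, br g = (lam ^ (-g.wt d) * τ g) •
      tw d D (E.restrictScalars ℤ) x l0 g + y ∧ y ∈ Submodule.span K (b ''
        (Finset.univ.filter fun t => (v t).lev < g.lev : Finset (Fin (n + 1)))) := by
    intro g hg
    rcases g with _ | _ | ⟨a, M, i, j⟩ | a | i
    · refine ⟨0, ?_, zero_mem _⟩
      rw [hbrx, hxx', add_zero, hτn _ (by simp), mul_one]
      simp only [Gt.wt, zpow_neg_one]
      rfl
    · refine ⟨δ lam⁻¹ • x, ?_, hmono (by simp [Gt.lev] : 0 < (Gt.t : Gt α n).lev)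
        (hle 0 (by norm_num) (Submodule.smul_mem _ _ (xt_mem 0)))⟩
      rw [hbrt, hτt]
      simp only [Gt.wt, zpow_neg_one]
      funext l
      rw [hδx]
      rfl
    · rw [hτn _ (by simp), mul_one]
      by_cases hM : M.degree + 1 = d a
      · refine ⟨(lam⁻¹ * (x j * DP a (M + Finsupp.single i 1) lam⁻¹ -
          x i * DP a (M + Finsupp.single j 1) lam⁻¹)) • x -
          (lam⁻¹ * lam⁻¹ * c * (x j * D a (M + Finsupp.single i 1) (unif P) -
            x i * D a (M + Finsupp.single j 1) (unif P))) • (fun l => E.restrictScalars ℤ (x l)),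
          ?_, ?_⟩
        · rw [hbrd]
          have e2 : lam ^ (-(Gt.de a M i j : Gt α n).wt d) = lam⁻¹ * lam⁻¹ := by
            have : -(Gt.de a M i j : Gt α n).wt d = -1 + -1 := by simp [Gt.wt]
            rw [this, zpow_add₀ hlam, zpow_neg_one]
          rw [e2]
          funext l
          simp only [tw, gw, if_pos hM, Pi.add_apply, Pi.sub_apply, Pi.smul_apply, smul_eq_mul]
          rw [hDx, hDx, hx'd, hx'd]
          change _ = _ + (_ - _ * E (x l))
          ring
        · refine hmono (by simp [Gt.lev] : 1 < (Gt.de a M i j : Gt α n).lev)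
            (hle 1 (by norm_num) (Submodule.sub_mem _ (Submodule.smul_mem _ _ (xt_mem 1))
              (Submodule.smul_mem _ _ (tt_mem le_rfl))))
      · refine ⟨0, ?_, zero_mem _⟩
        rw [hbrd, de_zero hM]
        have : tw d D (E.restrictScalars ℤ) x l0 (Gt.de a M i j) = gw d D x l0 (Gn.de a M i j) :=
          rfl
        rw [this, de_zero hM, smul_zero, add_zero]
    · rw [hτn _ (by simp), mul_one]
      obtain ⟨I, hI⟩ : ∃ I : Fin (n + 1) →₀ ℕ, I = Finsupp.single l' (d a) := ⟨_, rfl⟩
      refine ⟨lam⁻¹ • ((fun l => D a I (x l)) - mon x I • gw d D x l0 (Gn.v a)) -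
          (lam⁻¹ * (D a I (unif P) * c)) • (fun l => E.restrictScalars ℤ (x l)) +
            DP a I lam⁻¹ • x, ?_, ?_⟩
      · rw [hbrv, ← hI]
        have e1 : x l' = lam := by
          rw [hxx, Pi.smul_apply, hx1, smul_eq_mul, mul_one]
        have e2 : lam ^ (-(Gt.v a : Gt α n).wt d) = lam⁻¹ * lam ^ d a := by
          have : -(Gt.v a : Gt α n).wt d = -1 + (d a : ℤ) := by simp only [Gt.wt]; ring
          rw [this, zpow_add₀ hlam, zpow_neg_one, zpow_natCast]
        have e3 : mon x I = lam ^ d a := by rw [hI, mon_single, e1]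
        rw [e2, e3]
        funext l
        rw [hDx]
        simp only [Pi.add_apply, Pi.sub_apply, Pi.smul_apply, smul_eq_mul]
        have e4 : tw d D (E.restrictScalars ℤ) x l0 (Gt.v a) = gw d D x l0 (Gn.v a) := rfl
        rw [e4]
        change _ = _ + (_ - _ * E (x l) + _)
        ring
      · refine hmono (by simp [Gt.lev] : 2 < (Gt.v a : Gt α n).lev)
            (hle 2 (by norm_num) ?_)
        refine Submodule.add_mem _ (Submodule.sub_mem _ (Submodule.smul_mem _ _ ?_)
          (Submodule.smul_mem _ _ (tt_mem (by norm_num)))) (Submodule.smul_mem _ _ (xt_mem 2))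
        exact Dt_mem hx a (by rw [hI, Finsupp.degree_single])
    · exact absurd hg (by simp [Gt.lev])
  obtain ⟨b', hb'T, hb'n⟩ : ∃ b' : Matrix (Fin (n + 1)) (Fin (n + 1)) K,
      (∀ t ∈ T, b' t = br (v t)) ∧ ∀ t ∉ T, b' t = b t :=
    ⟨Matrix.of fun t => if t ∈ T then br (v t) else b t, fun t ht => if_pos ht,
      fun t ht => if_neg ht⟩
  have hTm : ∀ t ∈ T, (v t).lev ≤ 3 := fun t ht => by
    rw [hTd, Finset.mem_filter] at ht
    exact ht.2
  have hTn : ∀ t ∉ T, ∃ i, v t = Gt.e i := fun t ht => by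
    rw [hTd, Finset.mem_filter, not_and] at ht
    have ht := ht (Finset.mem_univ _)
    rcases hvt : v t with _ | _ | ⟨a, M, i, j⟩ | a | i
    · rw [hvt] at ht; exact absurd (by simp [Gt.lev]) ht
    · rw [hvt] at ht; exact absurd (by simp [Gt.lev]) ht
    · rw [hvt] at ht; exact absurd (by simp [Gt.lev]) ht
    · rw [hvt] at ht; exact absurd (by simp [Gt.lev]) ht
    · exact ⟨i, rfl⟩
  have hrow : ∀ t, ∃ cc : Fin (n + 1) → K, (∀ s, cc s ≠ 0 → (v s).lev < (v t).lev) ∧
      b' t = (lam ^ (-(v t).wt d) * τ (v t)) • b t + ∑ s, cc s • b s := by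
    intro t
    by_cases ht : t ∈ T
    · obtain ⟨y, hy, hyS⟩ := htri (v t) (hTm t ht)
      obtain ⟨cc, hcc, hyc⟩ := coef_of_span hyS
      refine ⟨cc, fun s hs => (Finset.mem_filter.1 (hcc s hs)).2, ?_⟩
      rw [hb'T t ht, hy, hyc, hbT t ht]
    · obtain ⟨i, hi⟩ := hTn t ht
      refine ⟨0, fun s hs => absurd rfl hs, ?_⟩
      rw [hb'n t ht, hi, hτn _ (by simp)]
      simp [Gt.wt]
  choose cc hcc hb'c using hrow
  have hdet2 : b'.det = (∏ t, (lam ^ (-(v t).wt d) * τ (v t))) * b.det :=
    det_tri b b' (fun t => (v t).lev) _ cc hcc hb'c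
  rw [Finset.prod_mul_distrib, prod_zpow_sum hlam, Finset.sum_neg_distrib,
    Finset.prod_eq_single t0 (fun t _ ht => hτn _ fun h => ht ((ht0 t).1 h))
      (fun h => absurd (Finset.mem_univ _) h), (ht0 t0).2 rfl, hτt] at hdet2
  have hdet3 : b'.det ≠ 0 := by
    rw [hdet2]
    exact mul_ne_zero (mul_ne_zero (zpow_ne_zero _ hlam) hc0) hdet
  have hspan : Submodule.span K (b' '' T) = Submodule.span K (b '' T) := by
    refine span_eq_of_le hdet hdet3 T fun t ht => ?_
    rw [hb'c]
    refine Submodule.add_mem _ (Submodule.smul_mem _ _ (Submodule.subset_span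
      ⟨t, ht, rfl⟩)) (Submodule.sum_mem _ fun s _ => ?_)
    by_cases hs : cc t s = 0
    · rw [hs, zero_smul]; exact zero_mem _
    · refine Submodule.smul_mem _ _ (Submodule.subset_span ⟨s, ?_, rfl⟩)
      rw [Finset.mem_coe, hTd, Finset.mem_filter]
      exact ⟨Finset.mem_univ _, (hcc t s hs).le.trans (hTm t ht)⟩
  have hff : ∀ a : α, Ge P (P.ord (eval x' (F a))) (eval x' (F a)) := fun a => Or.inr le_rfl
  have hδF : ∀ a J, δ ((F a).coeff J) = 0 := fun a J => by
    obtain ⟨r, hr⟩ := hS.const a J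
    rw [hr, hδ.2.1]
  obtain ⟨μ, hμt, hμn⟩ : ∃ μ : Fin (n + 1) → ℤ, (∀ t, v t = Gt.t → μ t = if S = ∅ then 0 else 1) ∧
      ∀ t, v t ≠ Gt.t → μ t = 0 :=
    ⟨fun t => if v t = Gt.t then (if S = ∅ then 0 else 1) else 0, fun t ht => if_pos ht,
      fun t ht => if_neg ht⟩
  have key := exch2 P (fun a => dL (F a) x')
    (fun a l => DP a (Finsupp.single l' (d a)) (x' l)) (fun a => P.ord (eval x' (F a))) (s := 0)
    (fun _ => 0) T S b' μ
    (fun t => by
      by_cases ht : v t = Gt.t
      · rw [hμt t ht]; split_ifs <;> norm_num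
      · rw [hμn t ht]) hdet3
    (fun t ht l => by
      rw [hb'T t ht]
      refine Ge.mono (by norm_num : -(0 : ℤ) - 0 ≤ 0) ?_
      have hlev := hTm t ht
      rcases hvt : v t with _ | _ | ⟨a, M, i, j⟩ | a | i
      · rw [hbrx]; exact hx' l
      · rw [hbrt]; exact hδ.2.2 _ (hx' l)
      · rw [hbrd]
        simp only [gw]
        split_ifs with hM
        · have h1 := (hx' j).mul (hge a (M + Finsupp.single i 1) 0 _ (hx' l))
          have h2 := (hx' i).mul (hge a (M + Finsupp.single j 1) 0 _ (hx' l))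
          rw [zero_add] at h1 h2
          exact h1.sub h2
        · exact Ge.zero
      · rw [hbrv]; exact hge a _ 0 _ (hx' l)
      · rw [hvt] at hlev
        exact absurd hlev (by simp [Gt.lev]))
    (fun t ht l => by
      rw [hb'n t ht]
      exact (hbn t ht l).mono (by norm_num))
    (fun a _ l => (hge a _ 0 _ (hx' l)).mono (by norm_num))
    (fun a _ => by
      apply coef_of_span
      rw [hspan, hTd]
      refine hle 3 le_rfl ?_
      obtain ⟨I, hI⟩ : ∃ I : Fin (n + 1) →₀ ℕ, I = Finsupp.single l' (d a) := ⟨_, rfl⟩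
      have h1 : (fun l => DP a I (x' l)) = lam⁻¹ • (((fun l => D a I (x l)) -
          mon x I • gw d D x l0 (Gn.v a)) + mon x I • gw d D x l0 (Gn.v a)) -
          (lam⁻¹ * (D a I (unif P) * c)) • (fun l => E.restrictScalars ℤ (x l)) +
            DP a I lam⁻¹ • x := by
        funext l
        rw [hDx]
        simp only [Pi.add_apply, Pi.sub_apply, Pi.smul_apply, smul_eq_mul]
        change _ = _ - _ * E (x l) + _
        ring
      rw [← hI, h1]
      refine Submodule.add_mem _ (Submodule.sub_mem _ (Submodule.smul_mem _ _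
        (Submodule.add_mem _ ?_ (Submodule.smul_mem _ _ ?_)))
          (Submodule.smul_mem _ _ (tt_mem (by norm_num)))) (Submodule.smul_mem _ _ (xt_mem 3))
      · exact Ht_mono (by norm_num) (Dt_mem hx a (by rw [hI, Finsupp.degree_single]))
      · exact tw_mem (E := E.restrictScalars ℤ) (Gt.v a))
    (fun a ha t ht => by
      rw [hb'T t ht]
      have hne := hSv a ha t
      have hlev := hTm t ht
      rcases hvt : v t with _ | _ | ⟨c, M, i, j⟩ | c | i
      · rw [hμn t (by rw [hvt]; simp), hbrx, dL_x hS.hom]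
        have := (Ge.natCast (P := P) (d a)).mul (hff a)
        rw [zero_add] at this
        exact this.mono (by omega)
      · rw [hμt t hvt, if_neg (Finset.ne_empty_of_mem ha), hbrt, dL_der (hδF a)]
        have := ge_der P (q := 0) (D := δ) (fun f hf => (hδ.2.2 f hf).mono (by omega)) (hff a)
        exact this.mono (by omega)
      · rw [hμn t (by rw [hvt]; simp), hbrd]
        by_cases hM : M.degree + 1 = d c
        · rw [dL_de hS.hom hdual c a hM]
          have h1 : Ge P (P.ord (eval x' (F a))) (x' j *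
              DP c (M + Finsupp.single i 1) (eval x' (F a))) := by
            have := (hx' j).mul (hge c (M + Finsupp.single i 1) _ _ (hff a))
            rwa [zero_add] at this
          have h2 : Ge P (P.ord (eval x' (F a))) (x' i *
              DP c (M + Finsupp.single j 1) (eval x' (F a))) := by
            have := (hx' i).mul (hge c (M + Finsupp.single j 1) _ _ (hff a))
            rwa [zero_add] at this
          have h3 : Ge P (P.ord (eval x' (F a))) (if c = a then
              (x' j * ep c (M + Finsupp.single i 1) -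
                x' i * ep c (M + Finsupp.single j 1)) * eval x' (F a) else 0) := by
            split_ifs
            · have h1 : Ge P 0 (x' j * (ep c (M + Finsupp.single i 1) : K) -
                  x' i * (ep c (M + Finsupp.single j 1) : K)) := by
                refine Ge.sub ?_ ?_
                · have := (hx' j).mul (Ge.natCast (P := P) (ep c (M + Finsupp.single i 1)))
                  rwa [zero_add] at this
                · have := (hx' i).mul (Ge.natCast (P := P) (ep c (M + Finsupp.single j 1)))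
                  rwa [zero_add] at this
              have := h1.mul (hff a)
              rwa [zero_add] at this
            · exact Ge.zero
          exact ((h1.sub h2).add h3).mono (by omega)
        · rw [de_zero hM, map_zero]; exact Ge.zero
      · rw [hμn t (by rw [hvt]; simp), hbrv]
        rw [dL_D hS.hom hdual x' c a (by rw [Finsupp.degree_single]), if_neg]
        · simp only [sub_zero]
          exact hge c (Finsupp.single l' (d c)) _ _ (hff a)
        · rintro rfl
          exact hne hvt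
      · rw [hvt] at hlev
        exact absurd hlev (by simp [Gt.lev]))
    (fun a _ a' _ haa => by
      rw [dL_D hS.hom hdual x' a' a (by rw [Finsupp.degree_single]), if_neg haa.symm]
      simp only [sub_zero]
      exact hge a' (Finsupp.single l' (d a')) _ _ (hff a))
    (fun a _ => by
      rw [dL_D hS.hom hdual x' a a (by rw [Finsupp.degree_single]), if_pos rfl, mon_single, hx1,
        one_pow]
      have h2 := (Ge.natCast (P := P) (ep a (Finsupp.single l' (d a)))).mul (hff a)
      rw [zero_add] at h2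
      have h1 := (hge a (Finsupp.single l' (d a)) _ _ (hff a)).add h2
      refine Ge.mono (by omega : _ ≤ P.ord (eval x' (F a))) ?_
      convert h1 using 1
      ring)
  rw [hdet2, P.ord_mul (mul_ne_zero (zpow_ne_zero _ hlam) hc0) hdet,
    P.ord_mul (zpow_ne_zero _ hlam) hc0, P.ord_zpow, hlamP, hcord] at key
  have hμs : ∑ t ∈ T, μ t ≤ if S = ∅ then 0 else 1 := by
    have h1 : ∑ t ∈ T, μ t ≤ ∑ t, μ t := by
      refine Finset.sum_le_sum_of_subset_of_nonneg (Finset.subset_univ _) fun t _ _ => ?_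
      by_cases ht : v t = Gt.t
      · rw [hμt t ht]; split_ifs <;> norm_num
      · rw [hμn t ht]
    rw [Finset.sum_eq_single t0 (fun t _ ht => hμn _ fun h => ht ((ht0 t).1 h))
      (fun h => absurd (Finset.mem_univ _) h), hμt t0 ((ht0 t0).2 rfl)] at h1
    exact h1
  have hord : ∀ a ∈ S, P.ord (eval x (F a)) - d a * pord P x ≤
      P.ord (eval x' (F a)) - 0 := by
    intro a ha
    have h1 : eval x (F a) = lam ^ d a * eval x' (F a) := by
      rw [hxx, eval_smul_hom (hS.hom a)]
    have h0 : eval x' (F a) ≠ 0 := by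
      intro h
      apply hS0 a ha
      rw [h1, h, mul_zero]
    rw [h1, P.ord_mul (pow_ne_zero _ hlam) h0, P.ord_pow, hlamP]
    linarith
  have hsum := Finset.sum_le_sum hord
  simp only [Finset.sum_const_zero, mul_zero, sub_zero] at key hsum
  linarith

end Pool.Agent.TH812.GV3
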