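import Pool.Agent.TH812.GV3.Res

/-!
The height inequality for curves in smooth complete intersections and their complements, with the
canonical class of the ambient complete intersection.
-/

set_option autoImplicit false

open MvPolynomial FF Pool.Agent.W603.LV Pool.Agent.W603.PV Pool.Agent.TH145.GH

namespace Pool.Agent.TH812.GV3

open Pool.Agent.TH812.GV Pool.Agent.TH812.GV2

theorem finrank_ker_le {K : Type} [Field K] {N : ℕ} {ι : Type} [Fintype ι] [DecidableEq ι]
    (J : ι → (Fin N → K) →ₗ[K] K) (A : ι → Fin N → K)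
    (h : (Matrix.of fun u j => J j (A u)).det ≠ 0) :
    Module.finrank K (LinearMap.ker (LinearMap.pi J)) + Fintype.card ι ≤ N := by
  have h0 : IsUnit (Matrix.of fun u j => J j (A u)) :=
    (Matrix.isUnit_iff_isUnit_det _).2 (isUnit_iff_ne_zero.2 h)
  have h1 : LinearIndependent K (Matrix.of fun u j => J j (A u)).row :=
    Matrix.linearIndependent_rows_iff_isUnit.2 h0
  have h2 : LinearIndependent K fun u =>
      (⟨LinearMap.pi J (A u), ⟨A u, rfl⟩⟩ : LinearMap.range (LinearMap.pi J)) :=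
    LinearIndependent.of_comp (LinearMap.range (LinearMap.pi J)).subtype h1
  have h3 := h2.fintype_card_le_finrank
  have h4 := LinearMap.finrank_range_add_finrank_ker (LinearMap.pi J)
  rw [Module.finrank_fin_fun] at h4
  omega

variable {k K : Type} [Field k] [Field K] [Algebra k K] [IsAlgClosed k] [CharZero k] [IsFF k K]
  {n : ℕ} {α : Type} {F : α → MvPolynomial (Fin (n + 1)) K} {d : α → ℕ}
    {D : α → (Fin (n + 1) →₀ ℕ) → Derivation ℤ K K} {ep : α → (Fin (n + 1) →₀ ℕ) → ℕ}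

theorem global_of_local {E : Derivation k K K} (hE : E ≠ 0) {x : Fin (n + 1) → K} (hx : x ≠ 0)
    (A : ℤ) (Θ : K) (cnt : Place k K → ℤ) (hcfin : {P | cnt P ≠ 0}.Finite)
    (hloc : ∀ P, A * pord P x - cnt P + vo P E ≤ P.ord Θ) :
    -A * pht k x ≤ ∑ᶠ P, cnt P + canDeg k K := by
  classical
  have hp := pord_finite (k := k) (Function.ne_iff.1 hx)
  have hv := vo_finite hE
  obtain ⟨T1, hT1⟩ := exists_supp (k := k) (Finset.univ : Finset Unit) (fun _ => Θ)
  obtain ⟨U, hU⟩ : ∃ U : Finset (Place k K),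
    U = (T1 ∪ hv.toFinset) ∪ (hp.toFinset ∪ hcfin.toFinset) := ⟨_, rfl⟩
  have g1 : ∑ P ∈ U, P.ord Θ = 0 := sum_ord_finset _ _ fun P hP => by
    rw [hU]
    exact Finset.mem_union_left _ (Finset.mem_union_left _ (hT1 () (Finset.mem_univ _) P hP))
  have g2 : pht k x = - ∑ P ∈ U, pord P x := by
    unfold pht
    rw [finsum_eq_sum_of_support_subset (s := U)]
    intro P hP
    rw [hU]
    exact Finset.mem_union_right _ (Finset.mem_union_left _ (hp.mem_toFinset.2 hP))
  have g3 : ∑ᶠ P, cnt P = ∑ P ∈ U, cnt P := by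
    rw [finsum_eq_sum_of_support_subset (s := U)]
    intro P hP
    rw [hU]
    exact Finset.mem_union_right _ (Finset.mem_union_right _ (hcfin.mem_toFinset.2 hP))
  have g5 : ∑ P ∈ U, vo P E = - canDeg k K := canDeg_finset hE U fun P hP => by
    rw [hU]
    exact Finset.mem_union_left _ (Finset.mem_union_right _ (hv.mem_toFinset.2 hP))
  have g4 := Finset.sum_le_sum (s := U) fun P _ => hloc P
  rw [Finset.sum_add_distrib, Finset.sum_sub_distrib, ← Finset.mul_sum, g1, g5, ← g3] at g4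
  rw [g2]
  have : -A * - ∑ P ∈ U, pord P x = A * ∑ P ∈ U, pord P x := by ring
  rw [this]
  linarith

omit [IsAlgClosed k] [CharZero k] [IsFF k K] in
theorem ord_prod_of {β : Type} (P : Place k K) (s : Finset β) (f : β → K)
    (h : ∀ a ∈ s, f a ≠ 0) : P.ord (∏ a ∈ s, f a) = ∑ a ∈ s, P.ord (f a) := by
  classical
  induction s using Finset.induction_on with
  | empty => simp [P.ord_one]
  | insert a s ha ih =>
    rw [Finset.prod_insert ha, Finset.sum_insert ha, P.ord_mul (h a (Finset.mem_insert_self _ _))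
      (Finset.prod_ne_zero_iff.2 fun b hb => h b (Finset.mem_insert_of_mem hb)),
      ih fun b hb => h b (Finset.mem_insert_of_mem hb)]

open Classical in
theorem local_S (hS : SysC k F d D ep) {E : Derivation k K K} (hE : E ≠ 0)
    {x : Fin (n + 1) → K} {l0 : Fin (n + 1)} (hx : x l0 ≠ 0) (v : Fin (n + 1) → Gt α n)
    {T : Finset (Fin (n + 1))} (hTd : T = Finset.univ.filter fun t => (v t).lev ≤ 3)
    {b : Matrix (Fin (n + 1)) (Fin (n + 1)) K} (hdet : b.det ≠ 0)
    (hbT : ∀ t ∈ T, b t = tw d D (E.restrictScalars ℤ) x l0 (v t))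
    (hle : ∀ L ≤ 3, Ht d D (E.restrictScalars ℤ) x l0 L ≤ Submodule.span K (b ''
      (Finset.univ.filter fun t => (v t).lev ≤ L : Finset (Fin (n + 1)))))
    {t0 : Fin (n + 1)} (ht0 : ∀ t, v t = Gt.t ↔ t = t0)
    (S : Finset α) (hSv : ∀ a ∈ S, ∀ t, v t ≠ Gt.v a) (hS0 : ∀ a ∈ S, eval x (F a) ≠ 0)
    (P : Place k K) (hbn : ∀ t ∉ T, ∀ l, Ge P 0 (b t l)) :
    (∑ t, (v t).wt d - ∑ a ∈ S, (d a : ℤ)) * pord P x -
      (if ∃ a, eval x (F a) ≠ 0 ∧ d a * pord P x < P.ord (eval x (F a)) then 1 else 0) +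
        vo P E ≤ P.ord b.det - ∑ a ∈ S, P.ord (eval x (F a)) := by
  obtain ⟨S', hS'⟩ : ∃ S' : Finset α, S' = S.filter fun a =>
    d a * pord P x < P.ord (eval x (F a)) := ⟨_, rfl⟩
  have h1 := local_ge3 hS hE hx v hTd hdet hbT hle ht0 S' (fun a ha => hSv a (by
    rw [hS', Finset.mem_filter] at ha; exact ha.1)) (fun a ha => hS0 a (by
    rw [hS', Finset.mem_filter] at ha; exact ha.1)) P hbn
  have h3 : ∑ a ∈ S, P.ord (eval x (F a)) ≤ ∑ a ∈ S', (P.ord (eval x (F a)) - d a * pord P x) +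
      (∑ a ∈ S, (d a : ℤ)) * pord P x := by
    have h4 : ∑ a ∈ S, P.ord (eval x (F a)) = ∑ a ∈ S, (P.ord (eval x (F a)) - d a * pord P x) +
        (∑ a ∈ S, (d a : ℤ)) * pord P x := by
      rw [Finset.sum_mul, ← Finset.sum_add_distrib]
      exact Finset.sum_congr rfl fun a _ => by ring
    rw [h4, hS', Finset.sum_filter]
    refine add_le_add_left (Finset.sum_le_sum fun a _ => ?_) _
    split_ifs with h
    · exact le_rfl
    · omega
  have h6 : (if S' = ∅ then (0 : ℤ) else 1) ≤ if ∃ a, eval x (F a) ≠ 0 ∧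
      d a * pord P x < P.ord (eval x (F a)) then 1 else 0 := by
    by_cases h : S' = ∅
    · rw [if_pos h]; split_ifs <;> norm_num
    · obtain ⟨a, ha⟩ := Finset.nonempty_iff_ne_empty.2 h
      rw [hS', Finset.mem_filter] at ha
      rw [if_neg h, if_pos ⟨a, hS0 a ha.1, ha.2⟩]
  rw [sub_mul]
  linarith

omit [IsAlgClosed k] [CharZero k] [IsFF k K] in
theorem sel_v3 (hS : SysC k F d D ep) {E : Derivation k K K} {x : Fin (n + 1) → K}
    {l0 : Fin (n + 1)} (hx : x l0 ≠ 0) {v : Fin (n + 1) → Gt α n}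
    (hdet : (Matrix.of fun t => tw d D (E.restrictScalars ℤ) x l0 (v t)).det ≠ 0)
    (hv : ∀ g (c : Fin (n + 1) → K), tw d D (E.restrictScalars ℤ) x l0 g =
      ∑ s, c s • tw d D (E.restrictScalars ℤ) x l0 (v s) →
      ∀ s, c s ≠ 0 → (v s).lev ≤ g.lev) (a : α) (ha : eval x (F a) = 0) :
    ∃ t, v t = Gt.v a := by
  classical
  obtain ⟨c, hc⟩ := exists_coord hdet (tw d D (E.restrictScalars ℤ) x l0 (Gt.v a))
  have hc' : tw d D (E.restrictScalars ℤ) x l0 (Gt.v a) =
      ∑ s, c s • tw d D (E.restrictScalars ℤ) x l0 (v s) := hc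
  have hg : ∀ b, tw d D (E.restrictScalars ℤ) x l0 (Gt.v b) = gw d D x l0 (Gn.v b) := fun _ => rfl
  have h1 : dL (F a) x (tw d D (E.restrictScalars ℤ) x l0 (Gt.v a)) = -1 := by
    rw [hg, dL_v hS.hom hS.dual hx a a ha, if_pos rfl]
  rw [hc', map_sum] at h1
  obtain ⟨s, hs⟩ : ∃ s, dL (F a) x (c s • tw d D (E.restrictScalars ℤ) x l0 (v s)) ≠ 0 := by
    by_contra hcon
    push Not at hcon
    rw [Finset.sum_eq_zero fun s _ => hcon s] at h1
    exact zero_ne_one (neg_eq_zero.1 h1.symm).symm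
  rw [map_smul, smul_eq_mul] at hs
  have hs1 : c s ≠ 0 := left_ne_zero_of_mul hs
  have hs2 := right_ne_zero_of_mul hs
  have h2 := hv _ c hc' s hs1
  refine ⟨s, ?_⟩
  rcases hvs : v s with _ | _ | ⟨b, M, i, j⟩ | b | i
  · exfalso
    apply hs2
    rw [hvs]
    change dL (F a) x x = 0
    rw [dL_x hS.hom, ha, mul_zero]
  · exfalso
    apply hs2
    rw [hvs]
    change dL (F a) x (fun l => E.restrictScalars ℤ (x l)) = 0
    rw [dL_der (fun J => by
      obtain ⟨r, hr⟩ := hS.const a J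
      rw [hr]
      exact E.map_algebraMap r), ha, map_zero]
  · exfalso
    apply hs2
    rw [hvs]
    change dL (F a) x (gw d D x l0 (Gn.de b M i j)) = 0
    by_cases hM : M.degree + 1 = d b
    · rw [dL_de hS.hom hS.dual b a hM, ha, map_zero, map_zero, mul_zero, mul_zero, sub_zero,
        mul_zero]
      simp
    · rw [de_zero hM, map_zero]
  · by_cases hab : b = a
    · rw [hab]
    · exfalso
      apply hs2
      rw [hvs, hg, dL_v hS.hom hS.dual hx b a ha, if_neg hab]
  · rw [hvs] at h2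
    exact absurd h2 (by simp [Gt.lev])

open Classical in
/-- The height inequality. -/
theorem ineq3 [Fintype α] (hS : SysC k F d D ep) {ι : Type} [Fintype ι]
    (G : ι → MvPolynomial (Fin (n + 1)) k) (e : ι → ℕ) (hG : ∀ j, (G j).IsHomogeneous (e j))
    {β : Type} (Q : β → MvPolynomial (Fin (n + 1)) k) (q : β → ℕ)
    (hQ : ∀ b, (Q b).IsHomogeneous (q b))
    (hsm : ∀ y : Fin (n + 1) → k, y ≠ 0 → (∀ j, eval y (G j) = 0) → (∀ b, eval y (Q b) = 0) →
      LinearIndependent k fun (j : ι) (l : Fin (n + 1)) => eval y (pderiv l (G j)))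
    (hDG : ∀ a I j J, D a I (algebraMap k K ((G j).coeff J)) = 0) {m : ℕ}
    (hn : n = m + Fintype.card ι) {x : Fin (n + 1) → K} (hx0 : x ≠ 0)
    (hxG : ∀ j, eval x (map (algebraMap k K) (G j)) = 0)
    (hxQ : ∀ b, eval x (map (algebraMap k K) (Q b)) = 0)
    (hnc : ∀ (c : K) (y : Fin (n + 1) → k), x ≠ c • fun l => algebraMap k K (y l)) :
    ((∑ a, (d a : ℤ)) + ((Finset.univ.filter fun a => eval x (F a) = 0).card : ℤ) -
      2 * m + min 2 (∑ j, ((e j - 1 : ℕ) : ℤ))) * pht k x ≤ ∑ᶠ P : Place k K, (if ∃ a,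
        eval x (F a) ≠ 0 ∧ d a * pord P x < P.ord (eval x (F a)) then 1 else 0) + canDeg k K := by
  obtain ⟨l0, hl0⟩ := Function.ne_iff.1 hx0
  have hl0' : x l0 ≠ 0 := hl0
  obtain ⟨E, hEd⟩ : ∃ E : Derivation k K K, E = der k K := ⟨_, rfl⟩
  have hE : E ≠ 0 := by rw [hEd]; exact der_ne
  have hxE : ∀ c : K, (fun l => E.restrictScalars ℤ (x l)) ≠ c • x := by
    intro c hc
    have h1 : ∀ l, E (x l) = c * x l := fun l => congrFun hc l
    have h2 : ∀ l, E (x l * (x l0)⁻¹) = 0 := by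
      intro l
      rw [E.leibniz, Derivation.leibniz_inv, h1, h1]
      simp only [smul_eq_mul]
      field_simp
      ring
    choose y hy using fun l => const_of_der hE (h2 l)
    apply hnc (x l0) y
    funext l
    rw [Pi.smul_apply, smul_eq_mul, ← hy l]
    field_simp
  obtain ⟨v, hdet, hv⟩ := exists_adapted (tw d D (E.restrictScalars ℤ) x l0) Gt.lev span_tw
  obtain ⟨b0, hb0⟩ : ∃ b0 : Matrix (Fin (n + 1)) (Fin (n + 1)) K,
    b0 = Matrix.of fun t => tw d D (E.restrictScalars ℤ) x l0 (v t) := ⟨_, rfl⟩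
  have hb0t : ∀ t, b0 t = tw d D (E.restrictScalars ℤ) x l0 (v t) := fun t => by rw [hb0]; rfl
  have hb0d : b0.det ≠ 0 := by rw [hb0]; exact hdet
  obtain ⟨t1, ht1⟩ := sel_x3 hx0 hdet hv
  obtain ⟨t0, ht0'⟩ := sel_t3 hxE hdet hv
  have ht0 : ∀ t, v t = Gt.t ↔ t = t0 := fun t =>
    ⟨fun h => card_t3 hdet ht0' t h, fun h => by rw [h, ht0']⟩
  have hselv := sel_v3 hS hl0' hdet hv
  obtain ⟨T, hTd⟩ : ∃ T : Finset (Fin (n + 1)), T = Finset.univ.filter fun t => (v t).lev ≤ 3 :=
    ⟨_, rfl⟩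
  have hTm : ∀ t ∈ T, (v t).lev ≤ 3 := fun t ht => by
    rw [hTd, Finset.mem_filter] at ht
    exact ht.2
  obtain ⟨J, hJd⟩ : ∃ J : ι → (Fin (n + 1) → K) →ₗ[K] K,
    ∀ j, J j = dL (map (algebraMap k K) (G j)) x := ⟨_, fun _ => rfl⟩
  have hGm : ∀ j, (map (algebraMap k K) (G j)).IsHomogeneous (e j) := fun j => (hG j).map _
  have hJD : ∀ j a I, J j (fun l => D a I (x l)) = 0 := by
    intro j a I
    rw [hJd, dL_der (fun M => by rw [coeff_map, hDG]), hxG, map_zero]
  have hJtw : ∀ j (g : Gt α n), g.lev ≤ 3 → J j (tw d D (E.restrictScalars ℤ) x l0 g) = 0 := by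
    intro j g hg
    rcases g with _ | _ | ⟨a, M, i, i'⟩ | a | i
    · change J j x = 0
      rw [hJd, dL_x hGm, hxG, mul_zero]
    · change J j (fun l => E.restrictScalars ℤ (x l)) = 0
      rw [hJd, dL_der (fun M => by
        rw [coeff_map]
        exact E.map_algebraMap _), hxG, map_zero]
    · change J j (gw d D x l0 (Gn.de a M i i')) = 0
      by_cases hM : M.degree + 1 = d a
      · have h2 : gw d D x l0 (Gn.de a M i i') =
            x i' • (fun l => D a (M + Finsupp.single i 1) (x l)) -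
              x i • (fun l => D a (M + Finsupp.single i' 1) (x l)) := by
          funext l
          simp only [gw, if_pos hM, Pi.sub_apply, Pi.smul_apply, smul_eq_mul]
        rw [h2, map_sub, map_smul, map_smul, hJD, hJD, smul_zero, smul_zero, sub_zero]
      · rw [de_zero hM, map_zero]
    · change J j (gw d D x l0 (Gn.v a)) = 0
      have h2 : gw d D x l0 (Gn.v a) =
          (x l0 ^ d a)⁻¹ • (fun l => D a (Finsupp.single l0 (d a)) (x l)) := by
        funext l
        simp only [gw, Pi.smul_apply, smul_eq_mul]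
      rw [h2, map_smul, hJD, smul_zero]
    · exact absurd hg (by simp [Gt.lev])
  have hrows := exists_dual_rows G e hG Q q hQ hsm hx0 hxG hxQ
  simp only [← hJd] at hrows
  obtain ⟨P0, -⟩ := exists_place (k := k) (K := K)
  obtain ⟨A0, -, hA0, -⟩ := hrows P0
  have hW := finrank_ker_le J A0 hA0
  have hTc : T.card ≤ m + 1 := by
    rw [hTd]
    refine card_T3 hdet (LinearMap.ker (LinearMap.pi J)) (by omega) fun g hg => ?_
    rw [LinearMap.mem_ker]
    funext j
    exact hJtw j g hg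
  obtain ⟨S, hSd⟩ : ∃ S : Finset α, S = Finset.univ.filter fun a => ∀ t, v t ≠ Gt.v a := ⟨_, rfl⟩
  have hSv : ∀ a ∈ S, ∀ t, v t ≠ Gt.v a := fun a ha => by
    rw [hSd, Finset.mem_filter] at ha
    exact ha.2
  have hSn : ∀ a ∉ S, ∃ t, v t = Gt.v a := fun a ha => by
    rw [hSd, Finset.mem_filter, not_and] at ha
    have := ha (Finset.mem_univ _)
    push Not at this
    exact this
  have hS0 : ∀ a ∈ S, eval x (F a) ≠ 0 := by
    intro a ha h0
    obtain ⟨t, ht⟩ := hselv a h0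
    exact hSv a ha t ht
  obtain ⟨w, hw⟩ : ∃ w : ℤ, w = ∑ t, (v t).wt d := ⟨_, rfl⟩
  have hprod0 : ∏ a ∈ S, eval x (F a) ≠ 0 := Finset.prod_ne_zero_iff.2 hS0
  obtain ⟨cnt, hcnt⟩ : ∃ cnt : Place k K → ℤ, ∀ P, cnt P = if ∃ a, eval x (F a) ≠ 0 ∧
      d a * pord P x < P.ord (eval x (F a)) then 1 else 0 := ⟨_, fun _ => rfl⟩
  have hcfin : {P | cnt P ≠ 0}.Finite := by
    have hp := pord_finite (k := k) (Function.ne_iff.1 hx0)
    have h1 : (⋃ a : α, {P : Place k K | P.ord (eval x (F a)) ≠ 0}).Finite :=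
      Set.finite_iUnion fun a => finite_ne
    refine (h1.union hp).subset fun P hP => ?_
    by_contra hcon
    simp only [Set.mem_union, Set.mem_iUnion, Set.mem_ofPred_eq, not_or, not_exists, not_not] at hcon
    obtain ⟨h2, h3⟩ := hcon
    have h3' : pord P x = 0 := by
      by_contra h
      exact h3 h
    apply hP
    rw [hcnt, if_neg]
    rintro ⟨a, -, h5⟩
    rw [h2 a, h3', mul_zero] at h5
    exact lt_irrefl _ h5
  have hpht : 0 ≤ pht k x :=
    (hgt_nonneg _).trans (Pool.Agent.W603.CX.hgt_le_pht (k := k) x hl0 hl0)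
  -- the bound for the weights
  have hz : ((Finset.univ.filter fun a => eval x (F a) = 0).card : ℤ) ≤ Sᶜ.card := by
    have : (Finset.univ.filter fun a => eval x (F a) = 0) ⊆ Sᶜ := by
      intro a ha
      rw [Finset.mem_compl]
      intro haS
      exact hS0 a haS (Finset.mem_filter.1 ha).2
    exact_mod_cast Finset.card_le_card this
  have hwM : ∀ M : ℤ, (T.card : ℤ) ≤ M + 1 → (∑ a, (d a : ℤ)) +
      ((Finset.univ.filter fun a => eval x (F a) = 0).card : ℤ) - 2 * M ≤
        ∑ a ∈ S, (d a : ℤ) - w := by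
    intro M hM
    rw [hTd] at hM
    have hwt := sum_wt3 (d := d) ht1 ht0' hM S hSn
    have h1 : ∑ a ∈ S, (d a : ℤ) + ∑ a ∈ Sᶜ, (d a : ℤ) = ∑ a, (d a : ℤ) :=
      Finset.sum_add_sum_compl S _
    have h2 : ∑ a ∈ Sᶜ, ((d a : ℤ) + 1) = ∑ a ∈ Sᶜ, (d a : ℤ) + Sᶜ.card := by
      rw [Finset.sum_add_distrib]
      simp
    rw [h2] at hwt
    rw [hw]
    linarith
  have hleb : ∀ b : Matrix (Fin (n + 1)) (Fin (n + 1)) K, (∀ t ∈ T, b t = b0 t) → ∀ L ≤ 3,
      Ht d D (E.restrictScalars ℤ) x l0 L ≤ Submodule.span K (b ''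
      (Finset.univ.filter fun t => (v t).lev ≤ L : Finset (Fin (n + 1)))) := by
    intro b hb L hL
    refine (Ht_le hdet hv L).trans (le_of_eq ?_)
    congr 1
    ext z
    constructor
    · rintro ⟨t, ht, rfl⟩
      refine ⟨t, ht, ?_⟩
      rw [Finset.mem_coe, Finset.mem_filter] at ht
      rw [hb t (by rw [hTd, Finset.mem_filter]; exact ⟨ht.1, ht.2.trans hL⟩), hb0t]
    · rintro ⟨t, ht, rfl⟩
      refine ⟨t, ht, ?_⟩
      rw [Finset.mem_coe, Finset.mem_filter] at ht
      rw [hb t (by rw [hTd, Finset.mem_filter]; exact ⟨ht.1, ht.2.trans hL⟩), hb0t]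
  simp only [← hcnt]
  by_cases hcase : T.card = m + 1
  · -- the vectors span the tangent space
    have hcard : Fintype.card ι = Fintype.card {t // ¬ t ∈ T} := by
      rw [Fintype.card_of_subtype Tᶜ (fun t => Finset.mem_compl), Finset.card_compl, hcase,
        Fintype.card_fin]
      omega
    obtain ⟨ε⟩ : Nonempty (ι ≃ {t // ¬ t ∈ T}) := ⟨Fintype.equivOfCardEq hcard⟩
    have hJb : ∀ j, ∀ t ∈ T, J j (b0 t) = 0 := fun j t ht => by
      rw [hb0t]; exact hJtw j _ (hTm t ht)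
    have hbA : ∀ A : ι → Fin (n + 1) → K, ∃ b : Matrix (Fin (n + 1)) (Fin (n + 1)) K,
        (∀ t ∈ T, b t = b0 t) ∧ (∀ u, b (ε u) = A u) ∧ ∀ t ∉ T, ∃ u, b t = A u := by
      intro A
      have h1 : ∀ t, ∀ h : ¬ t ∈ T, (Matrix.of fun t => if h : t ∈ T then b0 t else
        A (ε.symm ⟨t, h⟩)) t = A (ε.symm ⟨t, h⟩) := fun t h => dif_neg h
      refine ⟨Matrix.of fun t => if h : t ∈ T then b0 t else A (ε.symm ⟨t, h⟩),
        fun t ht => dif_pos ht, fun u => ?_, fun t ht => ⟨_, h1 t ht⟩⟩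
      rw [h1 (ε u) (ε u).2]
      congr 1
      exact ε.symm_apply_apply u
    obtain ⟨J0, hJ0⟩ : ∃ J0 : K, J0 = (Matrix.of fun u j => J j (b0 (ε u))).det := ⟨_, rfl⟩
    have hswap : ∀ (A : ι → Fin (n + 1) → K) (b : Matrix (Fin (n + 1)) (Fin (n + 1)) K),
        (∀ t ∈ T, b t = b0 t) → (∀ u, b (ε u) = A u) →
        b.det * J0 = b0.det * (Matrix.of fun u j => J j (A u)).det := by
      intro A b hb hbu
      rw [hJ0, det_swap hb0d hb ε J hJb]
      simp only [hbu]
    have hJ00 : J0 ≠ 0 := by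
      obtain ⟨b, hb, hbu, -⟩ := hbA A0
      have h1 := hswap A0 b hb hbu
      have h2 : b0.det * (Matrix.of fun u j => J j (A0 u)).det ≠ 0 := mul_ne_zero hb0d hA0
      rw [← h1] at h2
      exact right_ne_zero_of_mul h2
    have hloc : ∀ P : Place k K, (w - ∑ a ∈ S, (d a : ℤ) - ∑ j, ((e j - 1 : ℕ) : ℤ)) * pord P x -
        cnt P + vo P E ≤ P.ord (b0.det / J0 / ∏ a ∈ S, eval x (F a)) := by
      intro P
      obtain ⟨A, hAge, hAd, hAo⟩ := hrows P
      obtain ⟨b, hb, hbu, hbn⟩ := hbA A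
      have h1 := hswap A b hb hbu
      have hbd : b.det ≠ 0 := by
        have h2 : b0.det * (Matrix.of fun u j => J j (A u)).det ≠ 0 := mul_ne_zero hb0d hAd
        rw [← h1] at h2
        exact left_ne_zero_of_mul h2
      have h3 := local_S hS hE hl0' v hTd hbd (fun t ht => by rw [hb t ht, hb0t])
        (hleb b hb) ht0 S hSv hS0 P (fun t ht l => by
          obtain ⟨u, hu⟩ := hbn t ht
          rw [hu]
          exact hAge u l)
      have h3' : (w - ∑ a ∈ S, (d a : ℤ)) * pord P x - cnt P + vo P E ≤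
          P.ord b.det - ∑ a ∈ S, P.ord (eval x (F a)) := by
        rw [hcnt, hw]
        convert h3
      have h4 := congrArg P.ord h1
      rw [P.ord_mul hbd hJ00, P.ord_mul hb0d hAd, hAo] at h4
      rw [P.ord_div (div_ne_zero hb0d hJ00) hprod0, P.ord_div hb0d hJ00,
        ord_prod_of P S _ hS0, sub_mul (w - ∑ a ∈ S, (d a : ℤ))]
      linarith
    have h5 := global_of_local hE hx0 _ _ cnt hcfin hloc
    have h6 := hwM m (by rw [hcase]; push_cast; exact le_rfl)
    refine le_trans (mul_le_mul_of_nonneg_right ?_ hpht) h5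
    have h7 := min_le_right (2 : ℤ) (∑ j, ((e j - 1 : ℕ) : ℤ))
    linarith
  · have hTc' : T.card ≤ m := by omega
    have hloc : ∀ P : Place k K, (w - ∑ a ∈ S, (d a : ℤ)) * pord P x -
        cnt P + vo P E ≤ P.ord (b0.det / ∏ a ∈ S, eval x (F a)) := by
      intro P
      have h3 := local_S hS hE hl0' v hTd hb0d (fun t _ => hb0t t)
        (hleb b0 fun _ _ => rfl) ht0 S hSv hS0 P (fun t ht l => by
          rw [hTd, Finset.mem_filter, not_and] at ht
          have ht := ht (Finset.mem_univ _)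
          rw [hb0t]
          rcases hvt : v t with _ | _ | ⟨a, M, i, j⟩ | a | i
          · rw [hvt] at ht; exact absurd (by simp [Gt.lev]) ht
          · rw [hvt] at ht; exact absurd (by simp [Gt.lev]) ht
          · rw [hvt] at ht; exact absurd (by simp [Gt.lev]) ht
          · rw [hvt] at ht; exact absurd (by simp [Gt.lev]) ht
          · change Ge P 0 ((Pi.single i 1 : Fin (n + 1) → K) l)
            by_cases hl : l = i
            · rw [hl, Pi.single_eq_same]; exact Ge.one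
            · rw [Pi.single_eq_of_ne hl]; exact Ge.zero)
      have h3' : (w - ∑ a ∈ S, (d a : ℤ)) * pord P x - cnt P + vo P E ≤
          P.ord b0.det - ∑ a ∈ S, P.ord (eval x (F a)) := by
        rw [hcnt, hw]
        convert h3
      rw [P.ord_div hb0d hprod0, ord_prod_of P S _ hS0]
      exact h3'
    have h5 := global_of_local hE hx0 _ _ cnt hcfin hloc
    have h6 := hwM (m - 1) (by
      have : (T.card : ℤ) ≤ m := by exact_mod_cast hTc'
      linarith)
    refine le_trans (mul_le_mul_of_nonneg_right ?_ hpht) h5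
    have h7 := min_le_left (2 : ℤ) (∑ j, ((e j - 1 : ℕ) : ℤ))
    linarith

end Pool.Agent.TH812.GV3
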