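import Pool.Agent.TH812.GV3.Local

/-!
The residual determinant: the determinant of a basis of the tangent vectors, completed by arbitrary
rows, divided by the determinant of the gradients on these rows.
-/

set_option autoImplicit false

open MvPolynomial FF Pool.Agent.W603.LV Pool.Agent.W603.PV Pool.Agent.TH145.GH

namespace Pool.Agent.TH812.GV3

open Pool.Agent.TH812.GV Pool.Agent.TH812.GV2

section lin

variable {K : Type} [Field K] {N : ℕ} {ι : Type} [Fintype ι] [DecidableEq ι]

theorem det_swap {b b1 : Matrix (Fin N) (Fin N) K} (hb : b.det ≠ 0) {T : Finset (Fin N)}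
    (h : ∀ t ∈ T, b1 t = b t) (ε : ι ≃ {t // ¬ t ∈ T}) (J : ι → (Fin N → K) →ₗ[K] K)
    (hJ : ∀ j, ∀ t ∈ T, J j (b t) = 0) :
    b1.det * (Matrix.of fun u j => J j (b (ε u))).det =
      b.det * (Matrix.of fun u j => J j (b1 (ε u))).det := by
  classical
  have hu : IsUnit b.det := isUnit_iff_ne_zero.2 hb
  obtain ⟨C, hCd⟩ : ∃ C : Matrix (Fin N) (Fin N) K, C = b1 * b⁻¹ := ⟨_, rfl⟩
  have hC : b1 = C * b := by
    rw [hCd, Matrix.mul_assoc, Matrix.nonsing_inv_mul _ hu, Matrix.mul_one]
  have hrow : ∀ t, b1 t = ∑ s, C t s • b s := by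
    intro t
    funext l
    have h1 : b1 t l = (C * b) t l := by rw [← hC]
    rw [h1, Matrix.mul_apply, Finset.sum_apply]
    rfl
  have hCT : ∀ t ∈ T, ∀ s, C t s = if t = s then 1 else 0 := by
    intro t ht s
    rw [hCd, Matrix.mul_apply, h t ht, ← Matrix.mul_apply, Matrix.mul_nonsing_inv _ hu,
      Matrix.one_apply]
  have hdetC : C.det = (Matrix.of fun u u' => C (ε u) (ε u')).det := by
    rw [Matrix.twoBlockTriangular_det' C (fun t => t ∈ T) (fun i hi j hj => by
      rw [hCT i hi, if_neg]
      rintro rfl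
      exact hj hi)]
    have h1 : C.toSquareBlockProp (fun t => t ∈ T) = 1 := by
      ext i j
      change C i j = _
      rw [hCT i i.2, Matrix.one_apply]
      by_cases hij : i = j
      · rw [if_pos hij, if_pos (congrArg Subtype.val hij)]
      · rw [if_neg hij, if_neg fun h => hij (Subtype.ext h)]
    have h2 : (Matrix.of fun u u' => C (ε u) (ε u')).det =
        (Matrix.toSquareBlockProp C fun i => ¬ i ∈ T).det := by
      rw [← Matrix.det_submatrix_equiv_self ε]
      rfl
    rw [h1, h2]
    convert one_mul _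
    convert Matrix.det_one
  have hsum : ∀ f : Fin N → K, (∀ t ∈ T, f t = 0) → ∑ t, f t = ∑ u, f (ε u) := by
    intro f hf
    rw [Equiv.sum_comp ε (fun s => f s), ← Finset.sum_subset (Finset.subset_univ Tᶜ) (fun t _ ht => by
      rw [Finset.mem_compl, not_not] at ht
      exact hf t ht)]
    exact Finset.sum_subtype Tᶜ (fun t => Finset.mem_compl) f
  have hJb : (Matrix.of fun u j => J j (b1 (ε u))) =
      (Matrix.of fun u u' => C (ε u) (ε u')) * (Matrix.of fun u j => J j (b (ε u))) := by
    ext u j
    rw [Matrix.mul_apply, Matrix.of_apply, hrow, map_sum, hsum]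
    · refine Finset.sum_congr rfl fun u' _ => ?_
      rw [map_smul, smul_eq_mul]
      rfl
    · intro t ht
      rw [map_smul, hJ j t ht, smul_zero]
  rw [hJb, Matrix.det_mul, ← hdetC]
  conv_lhs => rw [hC, Matrix.det_mul]
  ring

/-- Vectors dual to independent vectors. -/
theorem exists_dual_vec (g : ι → Fin N → K) (hg : LinearIndependent K g) :
    ∃ a : ι → Fin N → K, ∀ u j, ∑ l, g j l * a u l = if u = j then 1 else 0 := by
  obtain ⟨M, hM⟩ : ∃ M : Matrix ι (Fin N) K, M = Matrix.of g := ⟨_, rfl⟩
  have h1 : M.rank = Fintype.card ι := by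
    apply LinearIndependent.rank_matrix
    rw [hM]
    exact hg
  have h2 : LinearMap.range M.mulVecLin = ⊤ := by
    apply Submodule.eq_top_of_finrank_eq
    rw [Module.finrank_fintype_fun_eq_card]
    exact h1
  have h3 : ∀ u : ι, ∃ a, M.mulVecLin a = Pi.single u 1 := fun u => by
    have : Pi.single u (1 : K) ∈ LinearMap.range M.mulVecLin := by rw [h2]; trivial
    exact this
  choose a ha using h3
  refine ⟨a, fun u j => ?_⟩
  have h4 := congrFun (ha u) j
  rw [Matrix.mulVecLin_apply, Matrix.mulVec, dotProduct, hM] at h4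
  rw [show ∑ l, g j l * a u l = ∑ l, Matrix.of g j l * a u l from rfl, h4, Pi.single_apply]
  by_cases h : u = j
  · rw [if_pos h, if_pos h.symm]
  · rw [if_neg h, if_neg fun h' => h h'.symm]

end lin

section loc

variable {k K : Type} [Field k] [Field K] [Algebra k K]

theorem prod_congr_ge (P : Place k K) {ι : Type} (s : Finset ι) (f f' : ι → K)
    (hf : ∀ i ∈ s, Ge P 0 (f i)) (hf' : ∀ i ∈ s, Ge P 0 (f' i))
    (h : ∀ i ∈ s, Ge P 1 (f i - f' i)) : Ge P 1 (∏ i ∈ s, f i - ∏ i ∈ s, f' i) := by
  classical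
  induction s using Finset.induction_on with
  | empty => simp only [Finset.prod_empty, sub_self]; exact Ge.zero
  | insert a s ha ih =>
    rw [Finset.prod_insert ha, Finset.prod_insert ha]
    have h1 := ih (fun i hi => hf i (Finset.mem_insert_of_mem hi))
      (fun i hi => hf' i (Finset.mem_insert_of_mem hi))
      (fun i hi => h i (Finset.mem_insert_of_mem hi))
    have h2 : Ge P 0 (∏ i ∈ s, f i) := by
      have := Ge.prod (P := P) s f (fun _ => 0) fun i hi => hf i (Finset.mem_insert_of_mem hi)
      rwa [Finset.sum_const_zero] at this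
    have h3 := (h a (Finset.mem_insert_self _ _)).mul h2
    have h4 := (hf' a (Finset.mem_insert_self _ _)).mul h1
    rw [add_zero] at h3
    rw [zero_add] at h4
    have h5 := h3.add h4
    convert h5 using 1
    ring

theorem unit_det (P : Place k K) {ι : Type} [Fintype ι] [DecidableEq ι] (M : Matrix ι ι K)
    (h0 : ∀ i j, Ge P 0 (M i j)) (h : ∀ i j, Ge P 1 (M i j - if i = j then 1 else 0)) :
    M.det ≠ 0 ∧ P.ord M.det = 0 := by
  have h1 : Ge P 1 (M.det - (1 : Matrix ι ι K).det) := by
    rw [Matrix.det_apply', Matrix.det_apply', ← Finset.sum_sub_distrib]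
    refine Ge.sum _ _ fun σ _ => ?_
    rw [← mul_sub]
    have h2 := (Ge.intCast (P := P) (Equiv.Perm.sign σ : ℤ)).mul
      (prod_congr_ge P Finset.univ (fun i => M (σ i) i) (fun i => (1 : Matrix ι ι K) (σ i) i)
        (fun i _ => h0 _ _) (fun i _ => by
          rw [Matrix.one_apply]
          split_ifs
          · exact Ge.one
          · exact Ge.zero) fun i _ => by
            rw [Matrix.one_apply]
            exact h _ _)
    rwa [zero_add] at h2
  rw [Matrix.det_one] at h1
  have h2 : Ge P 0 M.det := by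
    rw [Matrix.det_apply']
    refine Ge.sum _ _ fun σ _ => ?_
    have h2 := (Ge.intCast (P := P) (Equiv.Perm.sign σ : ℤ)).mul
      (Ge.prod Finset.univ (fun i => M (σ i) i) (fun _ => 0) (fun i _ => h0 _ _))
    rwa [Finset.sum_const_zero, zero_add] at h2
  have h3 : ¬ Ge P 1 M.det := by
    intro h4
    have h5 := h4.sub h1
    rw [sub_sub_cancel] at h5
    rcases h5 with h5 | h5
    · exact one_ne_zero h5
    · rw [P.ord_one] at h5
      omega
  have h4 : M.det ≠ 0 := fun h => h3 (Or.inl h)
  refine ⟨h4, le_antisymm ?_ (h2.resolve_left h4)⟩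
  by_contra hcon
  exact h3 (Or.inr (by omega))

theorem eval_congr_ge (P : Place k K) {n : ℕ} (p : MvPolynomial (Fin (n + 1)) k)
    {x y : Fin (n + 1) → K} (hx : ∀ l, Ge P 0 (x l)) (hy : ∀ l, Ge P 0 (y l))
    (hxy : ∀ l, Ge P 1 (x l - y l)) :
    Ge P 0 (eval x (map (algebraMap k K) p)) ∧
      Ge P 1 (eval x (map (algebraMap k K) p) - eval y (map (algebraMap k K) p)) := by
  have h1 : Ge P 0 (eval x (map (algebraMap k K) p)) ∧ Ge P 0 (eval y (map (algebraMap k K) p)) ∧
      Ge P 1 (eval x (map (algebraMap k K) p) - eval y (map (algebraMap k K) p)) := by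
    induction p using MvPolynomial.induction_on with
    | C a =>
      simp only [map_C, eval_C, sub_self]
      exact ⟨Ge.const a, Ge.const a, Ge.zero⟩
    | add p q hp hq =>
      simp only [map_add]
      refine ⟨hp.1.add hq.1, hp.2.1.add hq.2.1, ?_⟩
      have := hp.2.2.add hq.2.2
      convert this using 1
      ring
    | mul_X p i hp =>
      simp only [map_mul, map_X, eval_X]
      have h1 := hp.1.mul (hx i)
      have h2 := hp.2.1.mul (hy i)
      have h3 := hp.2.2.mul (hx i)
      have h4 := hp.2.1.mul (hxy i)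
      rw [add_zero] at h1 h2 h3
      rw [zero_add] at h4
      refine ⟨h1, h2, ?_⟩
      have := h3.add h4
      convert this using 1
      ring
  exact ⟨h1.1, h1.2.2⟩

variable [IsAlgClosed k] [CharZero k] [IsFF k K]

/-- At each place, there are vectors on which the gradients have a determinant of minimal order. -/
theorem exists_dual_rows {n : ℕ} {ι : Type} [Fintype ι] [DecidableEq ι]
    (G : ι → MvPolynomial (Fin (n + 1)) k) (e : ι → ℕ) (hG : ∀ j, (G j).IsHomogeneous (e j))
    {β : Type} (Q : β → MvPolynomial (Fin (n + 1)) k) (q : β → ℕ)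
    (hQ : ∀ b, (Q b).IsHomogeneous (q b))
    (hsm : ∀ y : Fin (n + 1) → k, y ≠ 0 → (∀ j, eval y (G j) = 0) → (∀ b, eval y (Q b) = 0) →
      LinearIndependent k fun (j : ι) (l : Fin (n + 1)) => eval y (pderiv l (G j)))
    {x : Fin (n + 1) → K} (hx : x ≠ 0) (hxG : ∀ j, eval x (map (algebraMap k K) (G j)) = 0)
    (hxQ : ∀ b, eval x (map (algebraMap k K) (Q b)) = 0) (P : Place k K) :
    ∃ A : ι → Fin (n + 1) → K, (∀ u l, Ge P 0 (A u l)) ∧
      (Matrix.of fun u j => dL (map (algebraMap k K) (G j)) x (A u)).det ≠ 0 ∧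
      P.ord (Matrix.of fun u j => dL (map (algebraMap k K) (G j)) x (A u)).det =
        (∑ j, ((e j - 1 : ℕ) : ℤ)) * pord P x := by
  obtain ⟨lam, x', hlam, hlamP, hxx, hx', l', hx1⟩ := exists_scaled P hx
  choose y hy using fun l => exists_const P (hx' l)
  have hyl : y l' ≠ 0 := by
    intro h
    have h1 := hy l'
    rw [hx1, h, map_zero, sub_zero] at h1
    rcases h1 with h1 | h1
    · exact one_ne_zero h1
    · rw [P.ord_one] at h1
      omega
  have hy0 : y ≠ 0 := by
    rintro rfl
    exact hyl rfl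
  obtain ⟨yK, hyK⟩ : ∃ yK : Fin (n + 1) → K, ∀ l, yK l = algebraMap k K (y l) := ⟨_, fun _ => rfl⟩
  have hyKe : ∀ p : MvPolynomial (Fin (n + 1)) k,
      eval yK (map (algebraMap k K) p) = algebraMap k K (eval y p) := by
    intro p
    have h1 : yK = fun l => algebraMap k K (y l) := funext hyK
    have h2 := MvPolynomial.eval₂_comp_left (algebraMap k K) (RingHom.id k) y p
    rw [RingHom.comp_id] at h2
    rw [h1, eval_map]
    exact h2.symm
  have hcon : ∀ p : MvPolynomial (Fin (n + 1)) k, Ge P 0 (eval x' (map (algebraMap k K) p)) ∧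
      Ge P 1 (eval x' (map (algebraMap k K) p) - algebraMap k K (eval y p)) := by
    intro p
    rw [← hyKe]
    exact eval_congr_ge P p hx' (fun l => by rw [hyK]; exact Ge.const _)
      (fun l => by rw [hyK]; exact hy l)
  have hmapG : ∀ j, (map (algebraMap k K) (G j)).IsHomogeneous (e j) := fun j => (hG j).map _
  have hyp : ∀ (p : MvPolynomial (Fin (n + 1)) k) (r : ℕ), p.IsHomogeneous r →
      eval x (map (algebraMap k K) p) = 0 → eval y p = 0 := by
    intro p r hp h0
    have h1 := (hcon p).2
    have h2 : eval x' (map (algebraMap k K) p) = 0 := by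
      rw [hxx, eval_smul_hom (hp.map _)] at h0
      exact (mul_eq_zero.1 h0).resolve_left (pow_ne_zero _ hlam)
    rw [h2, zero_sub] at h1
    have h3 := h1.neg
    rw [neg_neg] at h3
    by_contra h0
    rcases h3 with h3 | h3
    · exact h0 ((map_eq_zero _).1 h3)
    · rw [P.ord_const h0] at h3
      omega
  obtain ⟨a, ha⟩ := exists_dual_vec _ (hsm y hy0 (fun j => hyp _ _ (hG j) (hxG j))
    fun b => hyp _ _ (hQ b) (hxQ b))
  obtain ⟨A, hA⟩ : ∃ A : ι → Fin (n + 1) → K, ∀ u l, A u l = algebraMap k K (a u l) :=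
    ⟨fun u l => algebraMap k K (a u l), fun _ _ => rfl⟩
  have hpd : ∀ j l, eval x' (pderiv l (map (algebraMap k K) (G j))) =
      eval x' (map (algebraMap k K) (pderiv l (G j))) := fun j l => by
    rw [pderiv_map]
  have hd1 : ∀ u j, dL (map (algebraMap k K) (G j)) x' (A u) =
      ∑ l, eval x' (map (algebraMap k K) (pderiv l (G j))) * algebraMap k K (a u l) := by
    intro u j
    rw [dL_apply]
    unfold dF
    refine Finset.sum_congr rfl fun l _ => ?_
    rw [hpd, hA]
  have hM := unit_det P (Matrix.of fun u j => dL (map (algebraMap k K) (G j)) x' (A u))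
    (fun u j => by
      rw [Matrix.of_apply, hd1]
      refine Ge.sum _ _ fun l _ => ?_
      have := (hcon (pderiv l (G j))).1.mul (Ge.const (P := P) (a u l))
      rwa [zero_add] at this)
    (fun u j => by
      rw [Matrix.of_apply, hd1]
      have h1 : (if u = j then (1 : K) else 0) =
          ∑ l, algebraMap k K (eval y (pderiv l (G j))) * algebraMap k K (a u l) := by
        have h2 := congrArg (algebraMap k K) (ha u j)
        rw [map_sum] at h2
        simp only [map_mul] at h2
        rw [h2]
        split_ifs <;> simp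
      rw [h1, ← Finset.sum_sub_distrib]
      refine Ge.sum _ _ fun l _ => ?_
      rw [← sub_mul]
      have := (hcon (pderiv l (G j))).2.mul (Ge.const (P := P) (a u l))
      rwa [add_zero] at this)
  have hsc : ∀ u j, dL (map (algebraMap k K) (G j)) x (A u) =
      lam ^ (e j - 1) * dL (map (algebraMap k K) (G j)) x' (A u) := by
    intro u j
    rw [dL_apply, dL_apply]
    unfold dF
    rw [Finset.mul_sum]
    refine Finset.sum_congr rfl fun l _ => ?_
    rw [hxx, eval_smul_hom (hmapG j).pderiv]
    ring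
  have hdet : (Matrix.of fun u j => dL (map (algebraMap k K) (G j)) x (A u)).det =
      (∏ j, lam ^ (e j - 1)) *
        (Matrix.of fun u j => dL (map (algebraMap k K) (G j)) x' (A u)).det := by
    rw [← Matrix.det_mul_row]
    congr 1
    ext u j
    exact hsc u j
  have hprod : ∏ j, lam ^ (e j - 1) ≠ 0 := Finset.prod_ne_zero_iff.2 fun _ _ => pow_ne_zero _ hlam
  refine ⟨A, fun u l => by rw [hA]; exact Ge.const _, ?_, ?_⟩
  · rw [hdet]
    exact mul_ne_zero hprod hM.1
  · rw [hdet, P.ord_mul hprod hM.1, hM.2, add_zero, Finset.prod_pow_eq_pow_sum, P.ord_pow, hlamP]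
    push_cast
    rfl

end loc

end Pool.Agent.TH812.GV3
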