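import Pool.Agent.TH812.GV3.Main
import Pool.Agent.TH145.GH.Coprime

/-!
Rigidity: in the case of equality in the height inequality, all determinants are proportional with
constant factors.
-/

set_option autoImplicit false

open MvPolynomial FF Pool.Agent.W603.LV Pool.Agent.W603.PV Pool.Agent.TH145.GH

namespace Pool.Agent.TH812.GV3

open Pool.Agent.TH812.GV Pool.Agent.TH812.GV2

theorem adapted_of_min {K : Type} [Field K] {N : ℕ} {G : Type} (w : G → Fin N → K) (lev : G → ℕ)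
    {v : Fin N → G} (hv : (Matrix.of fun t => w (v t)).det ≠ 0)
    (hmin : ∀ v' : Fin N → G, (Matrix.of fun t => w (v' t)).det ≠ 0 →
      ∑ t, lev (v t) ≤ ∑ t, lev (v' t)) (g : G) (c : Fin N → K)
    (hg : w g = ∑ s, c s • w (v s)) (s : Fin N) (hs : c s ≠ 0) : lev (v s) ≤ lev g := by
  classical
  by_contra hcon
  push Not at hcon
  have h1 : (Matrix.of fun t => w (Function.update v s g t)) =
      (Matrix.of fun t => w (v t)).updateRow s (∑ t, c t • (Matrix.of fun t => w (v t)) t) := by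
    ext t l
    by_cases hts : t = s
    · subst hts
      rw [Matrix.updateRow_self, Matrix.of_apply, Function.update_self, hg]
      rfl
    · rw [Matrix.updateRow_ne hts, Matrix.of_apply, Function.update_of_ne hts, Matrix.of_apply]
  have h2 : (Matrix.of fun t => w (Function.update v s g t)).det ≠ 0 := by
    rw [h1, det_update]
    exact mul_ne_zero hs hv
  have h3 : ∑ t, lev (Function.update v s g t) < ∑ t, lev (v t) := by
    refine Finset.sum_lt_sum (fun t _ => ?_) ⟨s, Finset.mem_univ _, ?_⟩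
    · by_cases hts : t = s
      · subst hts
        rw [Function.update_self]
        exact hcon.le
      · rw [Function.update_of_ne hts]
    · rw [Function.update_self]
      exact hcon
  have h4 := hmin _ h2
  omega

theorem exists_min {K : Type} [Field K] {N : ℕ} {G : Type} (w : G → Fin N → K) (lev : G → ℕ)
    (hspan : Submodule.span K (Set.range w) = ⊤) :
    ∃ v : Fin N → G, (Matrix.of fun t => w (v t)).det ≠ 0 ∧
      ∀ v' : Fin N → G, (Matrix.of fun t => w (v' t)).det ≠ 0 →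
        ∑ t, lev (v t) ≤ ∑ t, lev (v' t) := by
  obtain ⟨v0, hv0, -⟩ := exists_adapted w lev hspan
  have hne : {m : ℕ | ∃ v : Fin N → G, (Matrix.of fun t => w (v t)).det ≠ 0 ∧
      ∑ t, lev (v t) = m}.Nonempty := ⟨_, v0, hv0, rfl⟩
  obtain ⟨v, hv, hm⟩ := Nat.sInf_mem hne
  refine ⟨v, hv, fun v' hv' => ?_⟩
  rw [hm]
  exact Nat.sInf_le ⟨v', hv', rfl⟩

variable {k K : Type} [Field k] [Field K] [Algebra k K] [IsAlgClosed k] [CharZero k] [IsFF k K]
  {n : ℕ} {α : Type} {F : α → MvPolynomial (Fin (n + 1)) K} {d : α → ℕ}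
    {D : α → (Fin (n + 1) →₀ ℕ) → Derivation ℤ K K} {ep : α → (Fin (n + 1) →₀ ℕ) → ℕ}

theorem pht_pos {x : Fin (n + 1) → K}
    (hnc : ∀ (c : K) (y : Fin (n + 1) → k), x ≠ c • fun l => algebraMap k K (y l)) :
    1 ≤ pht k x := by
  have hx0 : x ≠ 0 := by
    intro h
    apply hnc 0 0
    rw [h, zero_smul]
  obtain ⟨l0, hl0⟩ := Function.ne_iff.1 hx0
  have hl0' : x l0 ≠ 0 := hl0
  obtain ⟨l, hl⟩ : ∃ l, ∀ c : k, x l / x l0 ≠ algebraMap k K c := by
    by_contra hcon
    push Not at hcon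
    choose y hy using hcon
    apply hnc (x l0) y
    funext l
    rw [Pi.smul_apply, smul_eq_mul, ← hy l, mul_div_cancel₀ _ hl0']
  have hl1 : x l ≠ 0 := by
    intro h
    apply hl 0
    rw [h, zero_div, map_zero]
  have h1 : 1 ≤ hgt k (x l / x l0) := by
    by_contra hcon
    push Not at hcon
    obtain ⟨c, hc⟩ := const_of_hgt (k := k) (f := x l / x l0) (by omega)
    exact hl c hc
  exact h1.trans (Pool.Agent.W603.CX.hgt_le_pht (k := k) x hl1 hl0')

/-- A function without poles is constant. -/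
theorem const_of_ord {f : K} (h : ∀ P : Place k K, 0 ≤ P.ord f) :
    ∃ c : k, f = algebraMap k K c := by
  refine const_of_hgt (le_of_eq ?_)
  unfold hgt
  refine (finsum_congr fun P => ?_).trans finsum_zero
  have := h P
  exact max_eq_right (by omega)

/-- Rigidity. -/
theorem const_ratio {E : Derivation k K K} (hE : E ≠ 0) {x : Fin (n + 1) → K} (hx : x ≠ 0)
    {A : ℤ} {Θ Θ' : K} (hΘ : Θ ≠ 0) {cnt : Place k K → ℤ} (hcfin : {P | cnt P ≠ 0}.Finite)
    (hle : ∑ᶠ P, cnt P + canDeg k K ≤ -A * pht k x)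
    (hloc : ∀ P, A * pord P x - cnt P + vo P E ≤ P.ord Θ)
    (hloc' : Θ' ≠ 0 → ∀ P, A * pord P x - cnt P + vo P E ≤ P.ord Θ') :
    ∃ c : k, Θ' = algebraMap k K c * Θ := by
  classical
  by_cases h0 : Θ' = 0
  · exact ⟨0, by rw [h0, map_zero, zero_mul]⟩
  have hloc' := hloc' h0
  have hp := pord_finite (k := k) (Function.ne_iff.1 hx)
  have hv := vo_finite hE
  obtain ⟨T1, hT1⟩ := exists_supp (k := k) (Finset.univ : Finset Unit) (fun _ => Θ)
  obtain ⟨U, hU⟩ : ∃ U : Finset (Place k K),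
    U = (T1 ∪ hv.toFinset) ∪ (hp.toFinset ∪ hcfin.toFinset) := ⟨_, rfl⟩
  have g1 : ∑ P ∈ U, P.ord Θ = 0 := sum_ord_finset _ _ fun P hP => by
    rw [hU]
    exact Finset.mem_union_left _ (Finset.mem_union_left _ (hT1 () (Finset.mem_univ _) P hP))
  have g2 : pht k x = - ∑ P ∈ U, pord P x := by
    unfold pht
    rw [finsum_eq_sum_of_support_subset (s := U)]
    intro P hP
    rw [hU]
    exact Finset.mem_union_right _ (Finset.mem_union_left _ (hp.mem_toFinset.2 hP))
  have g3 : ∑ᶠ P, cnt P = ∑ P ∈ U, cnt P := by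
    rw [finsum_eq_sum_of_support_subset (s := U)]
    intro P hP
    rw [hU]
    exact Finset.mem_union_right _ (Finset.mem_union_right _ (hcfin.mem_toFinset.2 hP))
  have g5 : ∑ P ∈ U, vo P E = - canDeg k K := canDeg_finset hE U fun P hP => by
    rw [hU]
    exact Finset.mem_union_left _ (Finset.mem_union_right _ (hv.mem_toFinset.2 hP))
  have hnn : ∀ P ∈ U, 0 ≤ P.ord Θ - (A * pord P x - cnt P + vo P E) := fun P _ => by
    have := hloc P
    omega
  have g6 : ∑ P ∈ U, (P.ord Θ - (A * pord P x - cnt P + vo P E)) ≤ 0 := by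
    rw [Finset.sum_sub_distrib, Finset.sum_add_distrib, Finset.sum_sub_distrib, ← Finset.mul_sum,
      g1, g5, ← g3]
    rw [g2] at hle
    linarith
  have g7 : ∀ P ∈ U, P.ord Θ - (A * pord P x - cnt P + vo P E) = 0 :=
    (Finset.sum_eq_zero_iff_of_nonneg hnn).1 (le_antisymm g6 (Finset.sum_nonneg hnn))
  have g8 : ∀ P : Place k K, P.ord Θ ≤ P.ord Θ' := by
    intro P
    by_cases hP : P ∈ U
    · have h1 := g7 P hP
      have h2 := hloc' P
      omega
    · have h1 : P.ord Θ = 0 := by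
        by_contra h
        apply hP
        rw [hU]
        exact Finset.mem_union_left _ (Finset.mem_union_left _ (hT1 () (Finset.mem_univ _) P h))
      have h2 : pord P x = 0 := by
        by_contra h
        apply hP
        rw [hU]
        exact Finset.mem_union_right _ (Finset.mem_union_left _ (hp.mem_toFinset.2 h))
      have h3 : cnt P = 0 := by
        by_contra h
        apply hP
        rw [hU]
        exact Finset.mem_union_right _ (Finset.mem_union_right _ (hcfin.mem_toFinset.2 h))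
      have h4 : vo P E = 0 := by
        by_contra h
        apply hP
        rw [hU]
        exact Finset.mem_union_left _ (Finset.mem_union_right _ (hv.mem_toFinset.2 h))
      have h5 := hloc' P
      rw [h2, h3, h4] at h5
      rw [h1]
      linarith
  obtain ⟨c, hc⟩ := const_of_ord (k := k) (f := Θ' / Θ) fun P => by
    rw [P.ord_div h0 hΘ]
    have := g8 P
    omega
  exact ⟨c, by rw [← hc, div_mul_cancel₀ _ hΘ]⟩

/-- Independent linear relations bound the dimension of the span. -/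
theorem finrank_span_le {x : Fin (n + 1) → K} {β : Type} [Fintype β] (ℓ : β → Fin (n + 1) → k)
    (hli : LinearIndependent k ℓ) (h : ∀ u, ∑ l, algebraMap k K (ℓ u l) * x l = 0) :
    Module.finrank k (Submodule.span k (Set.range x)) + Fintype.card β ≤ n + 1 := by
  obtain ⟨ψ, hψ⟩ : ∃ ψ : (Fin (n + 1) → k) →ₗ[k] K, ψ = Fintype.linearCombination k x := ⟨_, rfl⟩
  have h1 : LinearMap.range ψ = Submodule.span k (Set.range x) := by
    rw [hψ, Fintype.range_linearCombination]
  have h2 : ∀ u, ℓ u ∈ LinearMap.ker ψ := by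
    intro u
    rw [LinearMap.mem_ker, hψ, Fintype.linearCombination_apply, ← h u]
    exact Finset.sum_congr rfl fun l _ => by rw [Algebra.smul_def]
  have h3 : LinearIndependent k fun u => (⟨ℓ u, h2 u⟩ : LinearMap.ker ψ) :=
    LinearIndependent.of_comp (LinearMap.ker ψ).subtype hli
  have h4 := h3.fintype_card_le_finrank
  have h5 := LinearMap.finrank_range_add_finrank_ker ψ
  rw [Module.finrank_fin_fun, h1] at h5
  omega

section J

variable {ι : Type} {G : ι → MvPolynomial (Fin (n + 1)) k} {e : ι → ℕ}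
  {x : Fin (n + 1) → K} {l0 : Fin (n + 1)}

omit [IsAlgClosed k] [CharZero k] [IsFF k K] in
theorem J_tw (hG : ∀ j, (G j).IsHomogeneous (e j))
    (hDG : ∀ a I j J, D a I (algebraMap k K ((G j).coeff J)) = 0)
    (hxG : ∀ j, eval x (map (algebraMap k K) (G j)) = 0) (E : Derivation k K K) (j : ι)
    (g : Gt α n) (hg : g.lev ≤ 3) :
    dL (map (algebraMap k K) (G j)) x (tw d D (E.restrictScalars ℤ) x l0 g) = 0 := by
  have hGm : ∀ j, (map (algebraMap k K) (G j)).IsHomogeneous (e j) := fun j => (hG j).map _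
  have hJD : ∀ a I, dL (map (algebraMap k K) (G j)) x (fun l => D a I (x l)) = 0 := by
    intro a I
    rw [dL_der (fun M => by rw [coeff_map, hDG]), hxG, map_zero]
  rcases g with _ | _ | ⟨a, M, i, i'⟩ | a | i
  · change dL (map (algebraMap k K) (G j)) x x = 0
    rw [dL_x hGm, hxG, mul_zero]
  · change dL (map (algebraMap k K) (G j)) x (fun l => E.restrictScalars ℤ (x l)) = 0
    rw [dL_der (fun M => by
      rw [coeff_map]
      exact E.map_algebraMap _), hxG, map_zero]
  · change dL (map (algebraMap k K) (G j)) x (gw d D x l0 (Gn.de a M i i')) = 0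
    by_cases hM : M.degree + 1 = d a
    · have h2 : gw d D x l0 (Gn.de a M i i') =
          x i' • (fun l => D a (M + Finsupp.single i 1) (x l)) -
            x i • (fun l => D a (M + Finsupp.single i' 1) (x l)) := by
        funext l
        simp only [gw, if_pos hM, Pi.sub_apply, Pi.smul_apply, smul_eq_mul]
      rw [h2, map_sub, map_smul, map_smul, hJD, hJD, smul_zero, smul_zero, sub_zero]
    · rw [de_zero hM, map_zero]
  · change dL (map (algebraMap k K) (G j)) x (gw d D x l0 (Gn.v a)) = 0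
    have h2 : gw d D x l0 (Gn.v a) =
        (x l0 ^ d a)⁻¹ • (fun l => D a (Finsupp.single l0 (d a)) (x l)) := by
      funext l
      simp only [gw, Pi.smul_apply, smul_eq_mul]
    rw [h2, map_smul, hJD, smul_zero]
  · exact absurd hg (by simp [Gt.lev])

omit [IsAlgClosed k] [CharZero k] [IsFF k K] in
theorem le_of_agree {E : Derivation k K K} {v : Fin (n + 1) → Gt α n}
    (hdet : (Matrix.of fun t => tw d D (E.restrictScalars ℤ) x l0 (v t)).det ≠ 0)
    (hv : ∀ g (c : Fin (n + 1) → K), tw d D (E.restrictScalars ℤ) x l0 g =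
      ∑ s, c s • tw d D (E.restrictScalars ℤ) x l0 (v s) →
      ∀ s, c s ≠ 0 → (v s).lev ≤ g.lev)
    {T : Finset (Fin (n + 1))} (hTd : T = Finset.univ.filter fun t => (v t).lev ≤ 3)
    {b : Matrix (Fin (n + 1)) (Fin (n + 1)) K}
    (hb : ∀ t ∈ T, b t = tw d D (E.restrictScalars ℤ) x l0 (v t)) (L : ℕ) (hL : L ≤ 3) :
    Ht d D (E.restrictScalars ℤ) x l0 L ≤ Submodule.span K (b ''
      (Finset.univ.filter fun t => (v t).lev ≤ L : Finset (Fin (n + 1)))) := by
  refine (Ht_le hdet hv L).trans (le_of_eq ?_)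
  congr 1
  ext z
  constructor
  · rintro ⟨t, ht, rfl⟩
    refine ⟨t, ht, ?_⟩
    rw [Finset.mem_coe, Finset.mem_filter] at ht
    rw [hb t (by rw [hTd, Finset.mem_filter]; exact ⟨ht.1, ht.2.trans hL⟩)]
  · rintro ⟨t, ht, rfl⟩
    refine ⟨t, ht, ?_⟩
    rw [Finset.mem_coe, Finset.mem_filter] at ht
    rw [hb t (by rw [hTd, Finset.mem_filter]; exact ⟨ht.1, ht.2.trans hL⟩)]

variable [Fintype ι]

theorem bA_exists {T : Finset (Fin (n + 1))} (ε : ι ≃ {t // ¬ t ∈ T})
    (b0 : Matrix (Fin (n + 1)) (Fin (n + 1)) K) (A : ι → Fin (n + 1) → K) :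
    ∃ b : Matrix (Fin (n + 1)) (Fin (n + 1)) K,
      (∀ t ∈ T, b t = b0 t) ∧ (∀ u, b (ε u) = A u) ∧ ∀ t ∉ T, ∃ u, b t = A u := by
  classical
  have h1 : ∀ t, ∀ h : ¬ t ∈ T, (Matrix.of fun t => if h : t ∈ T then b0 t else
    A (ε.symm ⟨t, h⟩)) t = A (ε.symm ⟨t, h⟩) := fun t h => dif_neg h
  refine ⟨Matrix.of fun t => if h : t ∈ T then b0 t else A (ε.symm ⟨t, h⟩),
    fun t ht => dif_pos ht, fun u => ?_, fun t ht => ⟨_, h1 t ht⟩⟩
  rw [h1 (ε u) (ε u).2]
  congr 1
  exact ε.symm_apply_apply u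

open Classical in
/-- The local inequality for the residual determinant. -/
theorem local_B (hS : SysC k F d D ep) (hG : ∀ j, (G j).IsHomogeneous (e j))
    {β : Type} {Q : β → MvPolynomial (Fin (n + 1)) k} {q : β → ℕ}
    (hQ : ∀ b, (Q b).IsHomogeneous (q b))
    (hsm : ∀ y : Fin (n + 1) → k, y ≠ 0 → (∀ j, eval y (G j) = 0) → (∀ b, eval y (Q b) = 0) →
      LinearIndependent k fun (j : ι) (l : Fin (n + 1)) => eval y (pderiv l (G j)))
    (hDG : ∀ a I j J, D a I (algebraMap k K ((G j).coeff J)) = 0)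
    (hxG : ∀ j, eval x (map (algebraMap k K) (G j)) = 0)
    (hxQ : ∀ b, eval x (map (algebraMap k K) (Q b)) = 0) {E : Derivation k K K} (hE : E ≠ 0)
    (hx : x l0 ≠ 0) {v : Fin (n + 1) → Gt α n}
    (hdet : (Matrix.of fun t => tw d D (E.restrictScalars ℤ) x l0 (v t)).det ≠ 0)
    (hv : ∀ g (c : Fin (n + 1) → K), tw d D (E.restrictScalars ℤ) x l0 g =
      ∑ s, c s • tw d D (E.restrictScalars ℤ) x l0 (v s) →
      ∀ s, c s ≠ 0 → (v s).lev ≤ g.lev)
    {T : Finset (Fin (n + 1))} (hTd : T = Finset.univ.filter fun t => (v t).lev ≤ 3)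
    {t0 : Fin (n + 1)} (ht0 : ∀ t, v t = Gt.t ↔ t = t0)
    (S : Finset α) (hSv : ∀ a ∈ S, ∀ t, v t ≠ Gt.v a) (hS0 : ∀ a ∈ S, eval x (F a) ≠ 0)
    (ε : ι ≃ {t // ¬ t ∈ T}) :
    (Matrix.of fun u j => dL (map (algebraMap k K) (G j)) x
      (tw d D (E.restrictScalars ℤ) x l0 (v (ε u)))).det ≠ 0 ∧ ∀ P : Place k K,
    (∑ t, (v t).wt d - ∑ a ∈ S, (d a : ℤ) - ∑ j, ((e j - 1 : ℕ) : ℤ)) * pord P x -
      (if ∃ a, eval x (F a) ≠ 0 ∧ d a * pord P x < P.ord (eval x (F a)) then 1 else 0) +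
        vo P E ≤ P.ord ((Matrix.of fun t => tw d D (E.restrictScalars ℤ) x l0 (v t)).det /
          (Matrix.of fun u j => dL (map (algebraMap k K) (G j)) x
            (tw d D (E.restrictScalars ℤ) x l0 (v (ε u)))).det / ∏ a ∈ S, eval x (F a)) := by
  have hx0 : x ≠ 0 := by
    rintro rfl
    exact hx rfl
  have hprod0 : ∏ a ∈ S, eval x (F a) ≠ 0 := Finset.prod_ne_zero_iff.2 hS0
  obtain ⟨b0, hb0⟩ : ∃ b0 : Matrix (Fin (n + 1)) (Fin (n + 1)) K,
    b0 = Matrix.of fun t => tw d D (E.restrictScalars ℤ) x l0 (v t) := ⟨_, rfl⟩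
  have hb0t : ∀ t, b0 t = tw d D (E.restrictScalars ℤ) x l0 (v t) := fun t => by rw [hb0]; rfl
  have hb0d : b0.det ≠ 0 := by rw [hb0]; exact hdet
  obtain ⟨J, hJd⟩ : ∃ J : ι → (Fin (n + 1) → K) →ₗ[K] K,
    ∀ j, J j = dL (map (algebraMap k K) (G j)) x := ⟨_, fun _ => rfl⟩
  have hrows := exists_dual_rows G e hG Q q hQ hsm hx0 hxG hxQ
  simp only [← hJd] at hrows ⊢
  simp only [← hb0t]
  have hofb : (Matrix.of fun t => b0 t) = b0 := rfl
  rw [hofb]
  have hJb : ∀ j, ∀ t ∈ T, J j (b0 t) = 0 := fun j t ht => by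
    rw [hb0t, hJd]
    refine J_tw hG hDG hxG E j _ ?_
    rw [hTd, Finset.mem_filter] at ht
    exact ht.2
  obtain ⟨J0, hJ0⟩ : ∃ J0 : K, J0 = (Matrix.of fun u j => J j (b0 (ε u))).det := ⟨_, rfl⟩
  have hswap : ∀ (A : ι → Fin (n + 1) → K) (b : Matrix (Fin (n + 1)) (Fin (n + 1)) K),
      (∀ t ∈ T, b t = b0 t) → (∀ u, b (ε u) = A u) →
      b.det * J0 = b0.det * (Matrix.of fun u j => J j (A u)).det := by
    intro A b hb hbu
    rw [hJ0, det_swap hb0d hb ε J hJb]
    simp only [hbu]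
  have hJ00 : J0 ≠ 0 := by
    obtain ⟨P0, -⟩ := exists_place (k := k) (K := K)
    obtain ⟨A0, -, hA0, -⟩ := hrows P0
    obtain ⟨b, hb, hbu, -⟩ := bA_exists ε b0 A0
    have h1 := hswap A0 b hb hbu
    have h2 : b0.det * (Matrix.of fun u j => J j (A0 u)).det ≠ 0 := mul_ne_zero hb0d hA0
    rw [← h1] at h2
    exact right_ne_zero_of_mul h2
  refine ⟨by rw [← hJ0]; exact hJ00, fun P => ?_⟩
  rw [← hJ0]
  obtain ⟨A, hAge, hAd, hAo⟩ := hrows P
  obtain ⟨b, hb, hbu, hbn⟩ := bA_exists ε b0 A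
  have h1 := hswap A b hb hbu
  have hbd : b.det ≠ 0 := by
    have h2 : b0.det * (Matrix.of fun u j => J j (A u)).det ≠ 0 := mul_ne_zero hb0d hAd
    rw [← h1] at h2
    exact left_ne_zero_of_mul h2
  have hbT : ∀ t ∈ T, b t = tw d D (E.restrictScalars ℤ) x l0 (v t) := fun t ht => by
    rw [hb t ht, hb0t]
  have h3 := local_S hS hE hx v hTd hbd hbT
    (le_of_agree hdet hv hTd hbT) ht0 S hSv hS0 P (fun t ht l => by
      obtain ⟨u, hu⟩ := hbn t ht
      rw [hu]
      exact hAge u l)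
  have h4 := congrArg P.ord h1
  rw [P.ord_mul hbd hJ00, P.ord_mul hb0d hAd, hAo] at h4
  rw [P.ord_div (div_ne_zero hb0d hJ00) hprod0, P.ord_div hb0d hJ00,
    ord_prod_of P S _ hS0, sub_mul (∑ t, (v t).wt d - ∑ a ∈ S, (d a : ℤ))]
  linarith

end J

end Pool.Agent.TH812.GV3
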